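import Pool.Agent.helper6.FS.FRM
import Pool.Agent.helper94.FS.STH2
import Pool.Agent.helper97.FS.AVG

/-!
# MP_07c750, project FS: the proof of FRM by helper6, from the rows STH2 and AVG2 (with a continuous derivative of the step function) in place of STH and AVG
-/

open scoped MatrixGroups ContDiff Topology UpperHalfPlane ComplexConjugate
open UpperHalfPlane MeasureTheory Filter Set

set_option autoImplicit false

namespace Pool.Agent.FS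

open Pool.Agent.RS
open Pool.Agent.MS (bq BB BA SF pf)
open Pool.Agent.EN (XG MG mkX mkM fl pr)

noncomputable section

theorem FRM2_proof (hCHF : CHF_stmt) (hSTH : STH2_stmt) (hAVG : AVG2_stmt) (hLFH : LFH_stmt) (hLFU : LFU_stmt) (hUNF : UNF_stmt) (hVIS : VIS_stmt) (hXFL : EN.XFL_stmt) : FRM_stmt := by
  intro Γ m Oo hΓ hOo
  rcases Nat.eq_zero_or_pos m with hm0 | hm0
  · subst hm0
    refine ⟨1, one_pos, fun K e _ _ => ⟨0, fun μ n _ _ _ => ?_⟩⟩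
    have : {x : XG Γ | ∃ k < 0, volume.real {t : ℝ | t ∈ Icc (0 : ℝ) n ∧ fl Γ t x ∈ Oo k} ≤ 1 * n} = ∅ := by
      ext x
      simp
    rw [this, measure_empty]
    exact bot_le
  obtain ⟨O, hO, hOk⟩ : ∃ O : ℕ → Set (XG Γ), (∀ k, IsOpen (O k) ∧ (O k).Nonempty) ∧ ∀ k < m, O k = Oo k := by
    classical
    refine ⟨fun k => if k < m then Oo k else univ, fun k => ?_, fun k hk => if_pos hk⟩
    show IsOpen (if k < m then Oo k else univ) ∧ (if k < m then Oo k else univ).Nonempty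
    by_cases hk : k < m
    · rw [if_pos hk]
      exact hOo k hk
    · rw [if_neg hk]
      exact ⟨isOpen_univ, ⟨mkX Γ 1, mem_univ _⟩⟩
  choose O1 δk hO1 hO1ne hδk hδk1 hV using fun k => hVIS Γ (O k) (hO k).1 (hO k).2
  choose O' ck Ck χ χa χn χl hO' hO'ne hck hCk hSF hχ hχn hχl hχ1 hVP using fun k => hCHF Γ (O1 k) hΓ (hO1 k) (hO1ne k)
  obtain ⟨c0, hc0, hc0k⟩ := FRM_min m ck hck
  obtain ⟨δ0, hδ0, hδ0k⟩ := FRM_min m δk hδk
  obtain ⟨C, hC, hCk'⟩ := FRM_max m Ck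
  choose εkl hε0 hε4 hL using fun k l => hLFH Γ (O' k) (O' l) c0 hΓ (hO' k) (hO'ne k) (hO' l) (hO'ne l) hc0
  obtain ⟨ε, hε, hεkl⟩ := FRM_min2 m εkl hε0
  have hεq : ε < 1 / 4 := lt_of_le_of_lt (hεkl 0 hm0 0 hm0) (hε4 0 0)
  obtain ⟨θ, θ', Cθ, hCθ, hθd, hθ01, hθ', hθc, hθ1, hθ0⟩ := hSTH ε hε (by linarith)
  have hpi := Real.pi_pos
  have hpi4 := Real.pi_le_four
  have hm1 : (1 : ℝ) ≤ (m : ℝ) := by exact_mod_cast hm0
  obtain ⟨C3, hC3⟩ : ∃ C3 : ℝ, C3 = m * (2 * C * Cθ) := ⟨_, rfl⟩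
  have hCC : 1 ≤ 2 * C * Cθ := by nlinarith
  have hC31 : 1 ≤ C3 := by rw [hC3]; nlinarith
  refine ⟨ε * δ0 / 20, by positivity, ?_⟩
  intro K e hK he
  obtain ⟨e', he'⟩ : ∃ e' : ℝ, e' = min 1 e := ⟨_, rfl⟩
  have he'0 : 0 < e' := by rw [he']; exact lt_min one_pos he
  have he'1 : e' ≤ 1 := by rw [he']; exact min_le_left _ _
  have he'e : e' ≤ e := by rw [he']; exact min_le_right _ _
  obtain ⟨δ, hδ⟩ : ∃ δ : ℝ, δ = (e' / 200) ^ 2 := ⟨_, rfl⟩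
  have hδ0' : 0 < δ := by rw [hδ]; positivity
  have hδ1 : δ ≤ 1 := by
    rw [hδ]
    have h1 : e' / 200 ≤ 1 := by linarith
    have h2 : 0 ≤ e' / 200 := by positivity
    nlinarith
  obtain ⟨κ0, hκ0⟩ : ∃ κ0 : ℝ, κ0 = Real.pi * δ / (8 * K * C3) := ⟨_, rfl⟩
  have hK0 : 0 < K := by linarith
  have hC30 : 0 < C3 := by linarith
  have hκpos : 0 < κ0 := by rw [hκ0]; positivity
  have hκ1 : κ0 ≤ 1 := by
    rw [hκ0, div_le_one (by positivity)]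
    have h1 : Real.pi * δ ≤ 4 * 1 := mul_le_mul hpi4 hδ1 hδ0'.le (by norm_num)
    have h2 : 1 ≤ K * C3 := by nlinarith
    nlinarith
  obtain ⟨q, hq⟩ : ∃ q : ℝ, q = δ ^ 2 / 128 / (m : ℝ) ^ 2 := ⟨_, rfl⟩
  have hm0' : (0 : ℝ) < (m : ℝ) := by linarith
  have hq0 : 0 < q := by rw [hq]; positivity
  have hqm : (m : ℝ) ^ 2 * q = δ ^ 2 / 128 := by
    rw [hq]
    field_simp
  have hLall : ∀ k l, ∃ n0 : ℕ, k < m → l < m → ∀ (n : ℕ) (χ χa χn χl χ' χa' χn' χl' : SL(2, ℝ) → ℝ) (θ : ℝ → ℝ) (εc : ℝ), n0 ≤ n → VP Γ (O' k) c0 χ → VP Γ (O' l) c0 χ' → SF Γ χ χa χn χl → SF Γ χ' χa' χn' χl' → (∀ g, 0 ≤ χ g ∧ χ g ≤ 1) → (∀ g, 0 ≤ χ' g ∧ χ' g ≤ 1) → (∀ s, s ≤ 1 - 2 * ε → θ s = 0) → εc = κ0 * Real.exp (-n) →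
      IR.LFC (fun g => θ ((∑ i ∈ Finset.range n, χ (g * aM i)) / n)) (fun g => θ ((∑ i ∈ Finset.range n, χ' (g * aM i)) / n)) n εc (εc / 100) q := by
    intro k l
    by_cases h : k < m ∧ l < m
    · obtain ⟨n0, hn0⟩ := hL k l ε κ0 q hε (hεkl k h.1 l h.2) hκpos hκ1 hq0
      exact ⟨n0, fun _ _ => hn0⟩
    · exact ⟨0, fun h1 h2 => absurd ⟨h1, h2⟩ h⟩
  choose nkl hnkl using hLall
  obtain ⟨n1, hn1⟩ := FRM_maxN2 m nkl
  obtain ⟨n2, hn2⟩ := exists_nat_ge ((20 + 100 / δ0) / ε + 1)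
  refine ⟨max n1 n2, ?_⟩
  intro μ n hn hμ hGP
  have := hμ
  have hnn1 : n1 ≤ n := (le_max_left _ _).trans hn
  have hnn2 : (n2 : ℝ) ≤ (n : ℝ) := by exact_mod_cast (le_max_right _ _).trans hn
  have hnbig : (20 + 100 / δ0) / ε + 1 ≤ (n : ℝ) := hn2.trans hnn2
  have hn1' : 1 ≤ n := by
    have h1 : (0 : ℝ) < (20 + 100 / δ0) / ε := by positivity
    have h2 : (1 : ℝ) ≤ (n : ℝ) := by linarith
    exact_mod_cast h2
  have hnε : 20 + 100 / δ0 ≤ ε * n := by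
    have h1 : (20 + 100 / δ0) / ε ≤ (n : ℝ) := by linarith
    rw [div_le_iff₀ hε] at h1
    linarith
  -- the functions
  have hAV : ∀ k, ∃ Ψa Ψn Ψl : SL(2, ℝ) → ℝ, k < m → SF Γ (FRM_Psi (χ k) θ n) Ψa Ψn Ψl ∧ (∀ g, |Ψn g| ≤ 2 * C * Cθ) ∧ ∀ g, |Ψl g| ≤ 2 * C * Cθ * Real.exp n := by
    intro k
    by_cases hk : k < m
    · obtain ⟨Ψa, Ψn, Ψl, h⟩ := hAVG Γ C Cθ (χ k) (χa k) (χn k) (χl k) θ θ' n hC hCθ hn1' (hSF k)
        (fun g => (hχn k g).trans (hCk' k hk)) (fun g => (hχl k g).trans (hCk' k hk)) hθd hθc hθ'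
      exact ⟨Ψa, Ψn, Ψl, fun _ => h⟩
    · exact ⟨fun _ => 0, fun _ => 0, fun _ => 0, fun h => absurd h hk⟩
  choose Ψas Ψns Ψls hΨs using hAV
  have hexp1 : 1 ≤ Real.exp (n : ℝ) := Real.one_le_exp (Nat.cast_nonneg n)
  have hΨ01 : ∀ k g, 0 ≤ FRM_Psi (χ k) θ n g ∧ FRM_Psi (χ k) θ n g ≤ 1 := fun k g => hθ01 _
  obtain ⟨Ψa, Ψn, Ψl, hΨ, hΨn, hΨl⟩ := hUNF Γ m (2 * C * Cθ) (2 * C * Cθ * Real.exp n) (fun k => FRM_Psi (χ k) θ n) Ψas Ψns Ψls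
    (by linarith) (by nlinarith) (fun k hk => (hΨs k hk).1) (fun k _ g => hΨ01 k g) (fun k hk => (hΨs k hk).2.1) (fun k hk => (hΨs k hk).2.2)
  obtain ⟨Ψ, hΨdef⟩ : ∃ Ψ : SL(2, ℝ) → ℝ, Ψ = fun g => 1 - ∏ k ∈ Finset.range m, (1 - FRM_Psi (χ k) θ n g) := ⟨_, rfl⟩
  rw [← hΨdef] at hΨ
  have hΨ01' : ∀ g, 0 ≤ Ψ g ∧ Ψ g ≤ 1 := by
    intro g
    have h1 : 0 ≤ ∏ k ∈ Finset.range m, (1 - FRM_Psi (χ k) θ n g) :=
      Finset.prod_nonneg fun k _ => by linarith [(hΨ01 k g).2]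
    have h2 : ∏ k ∈ Finset.range m, (1 - FRM_Psi (χ k) θ n g) ≤ 1 :=
      Finset.prod_le_one (fun k _ => by linarith [(hΨ01 k g).2]) (fun k _ => by linarith [(hΨ01 k g).1])
    rw [hΨdef]
    constructor
    · show 0 ≤ 1 - _
      linarith
    · show 1 - _ ≤ (1 : ℝ)
      linarith
  have hΨne : ∀ g, Ψ g ≠ 0 → ∃ k < m, FRM_Psi (χ k) θ n g ≠ 0 := by
    intro g hg
    by_contra hcon
    push Not at hcon
    apply hg
    rw [hΨdef]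
    show 1 - _ = (0 : ℝ)
    rw [Finset.prod_eq_one]
    · ring
    · intro k hk
      rw [hcon k (Finset.mem_range.mp hk)]
      ring
  obtain ⟨εc, hεc⟩ : ∃ εc : ℝ, εc = κ0 * Real.exp (-n) := ⟨_, rfl⟩
  have hεc0 : 0 < εc := by rw [hεc]; exact mul_pos hκpos (Real.exp_pos _)
  have hVPc : ∀ k < m, VP Γ (O' k) c0 (χ k) := fun k hk g s o h1 h2 h3 => hVP k g s o h1 h2 (h3.trans (hc0k k hk))
  have hLFC : IR.LFC Ψ Ψ n εc (εc / 100) (δ ^ 2 / 128) := by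
    rw [← hqm]
    refine hLFU m Ψ Ψ (fun k => FRM_Psi (χ k) θ n) (fun k => FRM_Psi (χ k) θ n) n εc (εc / 100) q hq0.le hΨne hΨne ?_
    intro k hk l hl
    exact hnkl k l hk hl n (χ k) (χa k) (χn k) (χl k) (χ l) (χa l) (χn l) (χl l) θ εc ((hn1 k hk l hl).trans hnn1) (hVPc k hk) (hVPc l hl) (hSF k) (hSF l) (hχ k) (hχ l) hθ0 hεc
  have hL0 : εc = Real.pi / (4 * (2 * K * (C3 * Real.exp n) / δ)) := by
    rw [hεc, hκ0, Real.exp_neg]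
    have h1 : Real.exp (n : ℝ) ≠ 0 := (Real.exp_pos _).ne'
    field_simp
    ring
  have hbn : ∀ g, |Ψn g| ≤ C3 := by
    intro g
    rw [hC3]
    exact hΨn g
  have hbl : ∀ g, |Ψl g| ≤ C3 * Real.exp n := by
    intro g
    rw [hC3, mul_assoc]
    exact hΨl g
  have hG := hGP e' C3 δ (2 * K * (C3 * Real.exp n) / δ) εc (C3 * Real.exp n) (εc / 100) n Ψ Ψa Ψn Ψl Ψ Ψa Ψn Ψl
    he'0 he'1 hC31 hδ0' (by rw [hδ]) rfl hL0 (by positivity) hΨ hΨ hΨ01' hΨ01' hbn hbl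
    (fun g => (hbn g).trans (le_mul_of_one_le_right hC30.le hexp1)) hbl hLFC
  have hsub : {x : XG Γ | ∃ k < m, volume.real {t : ℝ | t ∈ Icc (0 : ℝ) n ∧ fl Γ t x ∈ Oo k} ≤ ε * δ0 / 20 * n} ⊆ IR.one Γ Ψ := by
    rintro x ⟨k, hk, hT⟩
    obtain ⟨g, rfl⟩ := (hXFL Γ).2.2.2.2.1 x
    have flm : ∀ (t : ℝ) (g : SL(2, ℝ)), fl Γ t (mkX Γ g) = mkX Γ (g * aM t) :=
      (hXFL Γ).2.2.2.2.2.2.2.2.1
    refine ⟨g, rfl, ?_⟩
    have hk1 : FRM_Psi (χ k) θ n g = 1 := by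
      refine hθ1 _ ?_
      refine FRM_avg (fun i => χ k (g * aM i)) n ε hn1' (fun i => (hχ k _).1) ?_
      have hcard := hV k (mkX Γ g) n ((Finset.range n).filter fun i => χ k (g * aM i) ≠ 1) (by
        intro i hi
        obtain ⟨hi1, hi2⟩ := Finset.mem_filter.mp hi
        refine ⟨Finset.mem_range.mp hi1, ?_⟩
        by_contra hcon
        push Not at hcon
        apply hi2
        apply hχ1
        intro s hs
        have h1 := hcon s hs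
        rw [add_comm, (hXFL Γ).1.add, flm, flm] at h1
        exact h1)
      rw [← hOk k hk] at hT
      have hvol := FRM_vol (fun t => fl Γ t (mkX Γ g) ∈ O k) n
      have hδle : 5 / δk k ≤ 5 / δ0 := div_le_div_of_nonneg_left (by norm_num) hδ0 (hδ0k k hk)
      have h5 : 5 / δk k * volume.real {t : ℝ | t ∈ Icc (0 : ℝ) (n + 5) ∧ fl Γ t (mkX Γ g) ∈ O k} ≤ 5 / δ0 * (ε * δ0 / 20 * n + 5) := by
        refine mul_le_mul hδle (hvol.trans (by linarith)) measureReal_nonneg (by positivity)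
      have h6 : 5 / δ0 * (ε * δ0 / 20 * n + 5) = ε * n / 4 + 25 / δ0 := by
        field_simp
        ring
      rw [h6] at h5
      refine le_trans hcard ?_
      have h7 : 100 / δ0 = 4 * (25 / δ0) := by ring
      rw [h7] at hnε
      have h8 : 0 < 25 / δ0 := by positivity
      linarith
    rw [hΨdef]
    show 1 - _ = (1 : ℝ)
    rw [Finset.prod_eq_zero (Finset.mem_range.mpr hk) (by rw [hk1]; ring)]
    ring
  calc μ {x : XG Γ | ∃ k < m, volume.real {t : ℝ | t ∈ Icc (0 : ℝ) n ∧ fl Γ t x ∈ Oo k} ≤ ε * δ0 / 20 * n}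
      ≤ μ (IR.one Γ Ψ) := measure_mono hsub
    _ = ENNReal.ofReal (μ.real (IR.one Γ Ψ)) := (ofReal_measureReal).symm
    _ ≤ ENNReal.ofReal (1 / 2 + e) := ENNReal.ofReal_le_ofReal (by linarith)

end

end Pool.Agent.FS
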