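import Pool.Agent.helper25.FS.AllF
import Pool.Agent.helper25.FS.FRM2
import Pool.Agent.helper34.FS.CNT
import Pool.Agent.helper67.FS.FIG
import Pool.Agent.helper96.FS.FUG
import Pool.Agent.helper3.FS.POT
import Pool.Agent.helper65.FS.FWG
import Pool.Agent.helper51.FS.BWG
import Pool.Agent.helper92.FS.VIS
import Pool.Agent.helper65.FS.LFH
import Pool.Agent.helper90.FS.LFU
import Pool.Agent.helper40.FS.UNF
import Pool.Agent.helper63.FS.FRN

/-!
# MP_07c750, project FS: all rows of SpecE and SpecF put together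
-/

set_option autoImplicit false

namespace Pool.Agent.FSA

open Pool.Agent.FS

theorem A_STH2 : STH2_stmt := STH2_proof
theorem A_AVG2 : AVG2_stmt := AVG_proof IR.A_SFP
theorem A_CNT : CNT_stmt := CNT_proof
theorem A_FIG : FIG_stmt := FIG_proof A_LSM A_MUL A_CUT A_PAR
theorem A_FUG : FUG_stmt := FUG_proof A_FIG
theorem A_POT : POT_stmt := POT_proof A_UDP RS.A_GLC EN.A_XFL
theorem A_FWG : FWG_stmt := FWG_proof A_POT RS.A_GLC
theorem A_BWG : BWG_stmt := BWG_proof A_POT RS.A_GLC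
theorem A_VIS : VIS_stmt := VIS_proof EN.A_XFL
theorem A_LFH : LFH_stmt := LFH_proof A_FWG A_BWG A_FUG A_CNT RS.A_GLC
theorem A_LFU : LFU_stmt := LFU_proof
theorem A_UNF : UNF_stmt := UNF_proof IR.A_SFP
theorem A_FRM : FRM_stmt := FRM2_proof A_CHF A_STH2 A_AVG2 A_LFH A_LFU A_UNF A_VIS EN.A_XFL
theorem A_FRN : FRN_stmt := FRN_proof A_FRM

end Pool.Agent.FSA
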