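import Pool.Agent.helper62.RS.All
import Pool.Agent.helper62.MS.All
import Pool.Agent.helper62.EN.All
import Pool.Agent.helper25.IR.All
import Pool.Agent.helper43.FS.RHO
import Pool.Agent.helper27.FS.RRW
import Pool.Agent.helper89.FS.CAU
import Pool.Agent.helper71.FS.ROT
import Pool.Agent.helper23.FS.HMW
import Pool.Agent.helper6.FS.HMB
import Pool.Agent.helper73.FS.UNQ
import Pool.Agent.helper24.FS.PLR
import Pool.Agent.helper23.FS.STF
import Pool.Agent.helper35.FS.LSO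
import Pool.Agent.helper27.FS.SUP
import Pool.Agent.helper64.FS.LSP
import Pool.Agent.helper87.FS.LSM
import Pool.Agent.helper79.FS.PAR
import Pool.Agent.helper4.FS.MUL
import Pool.Agent.helper46.FS.FEJ
import Pool.Agent.helper39.FS.CUT
import Pool.Agent.helper69.FS.FIT
import Pool.Agent.helper83.FS.FUP
import Pool.Agent.helper99.FS.NLT
import Pool.Agent.helper73.FS.PMS
import Pool.Agent.helper27.FS.PMN
import Pool.Agent.helper50.FS.UDP
import Pool.Agent.helper53.FS.POR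
import Pool.Agent.helper98.FS.CHF
import Pool.Agent.helper48.FS.PRD
import Pool.Agent.helper61.FS.PFO
import Pool.Agent.helper79.FS.PFU
import Pool.Agent.helper4.FS.FQP
import Pool.Agent.helper67.FS.LFP
import Pool.Agent.helper96.FS.FSK
import Pool.Agent.helper51.FS.FSD

/-!
# MP_07c750, project FS: all rows of SpecP and SpecD put together
-/

set_option autoImplicit false

namespace Pool.Agent.FSA

open Pool.Agent.FS

theorem A_RHO : RHO_stmt := RHO_proof
theorem A_RRW : RRW_stmt := RRW_proof A_RHO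
theorem A_CAU : CAU_stmt := CAU_proof A_RHO A_RRW
theorem A_ROT : ROT_stmt := ROT_proof
theorem A_HMW : HMW_stmt := HMW_proof
theorem A_HMB : HMB_stmt := HMB_proof A_ROT A_HMW
theorem A_UNQ : UNQ_stmt := UNQ_proof A_CAU A_HMB
theorem A_PLR : PLR_stmt := PLR_proof
theorem A_STF : STF_stmt := STF_proof A_RHO A_PLR
theorem A_LSO : LSO_stmt := LSO_proof A_UNQ A_STF
theorem A_SUP : SUP_stmt := SUP_proof
theorem A_LSP : LSP_stmt := LSP_proof A_LSO A_SUP
theorem A_LSM : LSM_stmt := LSM_proof A_LSP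
theorem A_PAR : PAR_stmt := PAR_proof
theorem A_MUL : MUL_stmt := MUL_proof
theorem A_FEJ : FEJ_stmt := FEJ_proof
theorem A_CUT : CUT_stmt := CUT_proof A_FEJ
theorem A_FIT : FIT_stmt := FIT_proof A_LSM A_MUL A_CUT A_PAR
theorem A_FUP : FUP_stmt := FUP_proof A_FIT
theorem A_NLT : NLT_stmt := NLT_proof RS.A_GLC EN.A_XDS
theorem A_PMS : PMS_stmt := PMS_proof A_NLT RS.A_GLC EN.A_XFL
theorem A_PMN : PMN_stmt := PMN_proof A_PMS EN.A_XFL RS.A_GLC
theorem A_UDP : UDP_stmt := UDP_proof A_PMN RS.A_GLC EN.A_XFL EN.A_XTX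
theorem A_POR : POR_stmt := POR_proof A_UDP RS.A_GLC EN.A_XFL
theorem A_CHF : CHF_stmt := CHF_proof MS.A_BXM IR.A_SFP RS.A_GLC EN.A_XFL
theorem A_PRD : PRD_stmt := PRD_proof IR.A_SFP
theorem A_PFO : PFO_stmt := PFO_proof A_CHF A_PRD A_POR EN.A_XFL RS.A_GLC
theorem A_PFU : PFU_stmt := PFU_proof IR.A_SFP
theorem A_FQP : FQP_stmt := FQP_proof RS.A_GLC
theorem A_LFP : LFP_stmt := LFP_proof A_FUP A_FQP
theorem A_FSK : FSK_stmt := FSK_proof A_LFP A_PFO A_PFU
theorem A_FSD : FSD_stmt := FSD_proof A_FSK EN.A_XTX EN.A_XFL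

end Pool.Agent.FSA
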