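import Pool.Agent.helper87.FS.Spec

set_option autoImplicit false

namespace Pool.Agent.FS

open Polynomial Matrix Pool.Agent.helper42.NS

theorem CGR_adj_iff {n : ℕ} (G : SimpleGraph (Fin n)) (i j : Fin n) :
    adj G i j = 1 ↔ G.Adj i j := by
  unfold adj
  split_ifs with h
  · simp [h]
  · simp [h]

theorem CGR_isGr {n : ℕ} (G : SimpleGraph (Fin n)) : IsGr (adj G) := by
  refine ⟨fun i j => ?_, fun i => ?_, fun i j => ?_⟩
  · unfold adj
    split_ifs
    · exact Or.inr rfl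
    · exact Or.inl rfl
  · unfold adj
    simp
  · unfold adj
    by_cases h : G.Adj i j
    · rw [if_pos h, if_pos h.symm]
    · rw [if_neg h, if_neg fun h' => h h'.symm]

theorem CGR_inj {n : ℕ} {G G' : SimpleGraph (Fin n)} (h : adj G = adj G') : G = G' := by
  ext i j
  rw [← CGR_adj_iff, ← CGR_adj_iff, h]

theorem CGR_choose (k m : ℕ) : (k + m).choose 2 = k.choose 2 + m.choose 2 + k * m := by
  induction m with
  | zero => simp
  | succ m ih =>
    have h1 : (k + (m + 1)).choose 2 = (k + m).choose 1 + (k + m).choose 2 :=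
      Nat.choose_succ_succ' (k + m) 1
    have h2 : (m + 1).choose 2 = m.choose 1 + m.choose 2 := Nat.choose_succ_succ' m 1
    rw [h1, h2, ih, Nat.choose_one_right, Nat.choose_one_right]
    ring

/-- the block of the marked vertices -/
def CGR_C (k m : ℕ) (A : Matrix (Fin (k + m)) (Fin (k + m)) ℤ) : Matrix (Fin k) (Fin k) ℤ :=
  fun i j => A (Fin.castAdd m i) (Fin.castAdd m j)

/-- the block of the other vertices -/
def CGR_H (k m : ℕ) (A : Matrix (Fin (k + m)) (Fin (k + m)) ℤ) : Matrix (Fin m) (Fin m) ℤ :=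
  fun i j => A (Fin.natAdd k i) (Fin.natAdd k j)

/-- the rows of the marked vertices -/
def CGR_B (k m : ℕ) (A : Matrix (Fin (k + m)) (Fin (k + m)) ℤ) : Fin k → Fin m → Bool :=
  fun i j => decide (A (Fin.castAdd m i) (Fin.natAdd k j) = 1)

theorem CGR_ext {k m : ℕ} {A A' : Matrix (Fin (k + m)) (Fin (k + m)) ℤ} (hA : IsGr A)
    (hA' : IsGr A') (h1 : CGR_C k m A = CGR_C k m A') (h2 : CGR_H k m A = CGR_H k m A')
    (h3 : CGR_B k m A = CGR_B k m A') : A = A' := by
  have hB : ∀ (i : Fin k) (j : Fin m), A (Fin.castAdd m i) (Fin.natAdd k j) =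
      A' (Fin.castAdd m i) (Fin.natAdd k j) := by
    intro i j
    have h4 := congrFun (congrFun h3 i) j
    unfold CGR_B at h4
    rw [decide_eq_decide] at h4
    rcases hA.1 (Fin.castAdd m i) (Fin.natAdd k j) with h5 | h5
    · rcases hA'.1 (Fin.castAdd m i) (Fin.natAdd k j) with h6 | h6
      · rw [h5, h6]
      · have h7 := h4.2 h6
        rw [h5] at h7
        exact absurd h7 (by norm_num)
    · rw [h5, h4.1 h5]
  ext i j
  refine Fin.addCases (fun i => ?_) (fun i => ?_) i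
  · refine Fin.addCases (fun j => ?_) (fun j => ?_) j
    · exact congrFun (congrFun h1 i) j
    · exact hB i j
  · refine Fin.addCases (fun j => ?_) (fun j => ?_) j
    · rw [hA.2.2, hA'.2.2]
      exact hB j i
    · exact congrFun (congrFun h2 i) j

theorem CGR_main (k m a b : ℕ) (h2 : KRA_stmt) (h3 : CXF_stmt)
    (h1 : Set.ncard {HB : Matrix (Fin m) (Fin m) ℤ × (Fin k → Fin m → Bool) | IsGr HB.1 ∧
      Kry HB.1 (Set.range fun i => ind (HB.2 i)) ≠ ⊤} * a ≤ b * 2 ^ (m.choose 2 + k * m)) :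
    Nat.card {G : SimpleGraph (Fin (k + m)) // Kry (adj G) (uv (Set.range (Fin.castAdd m))) ≠ ⊤} * a
      ≤ b * 2 ^ ((k + m).choose 2) := by
  classical
  set SC : Set (Matrix (Fin k) (Fin k) ℤ × (Fin 0 → Fin k → Bool)) := {HB | IsGr HB.1} with hSC
  set SB : Set (Matrix (Fin m) (Fin m) ℤ × (Fin k → Fin m → Bool)) := {HB | IsGr HB.1 ∧
      Kry HB.1 (Set.range fun i => ind (HB.2 i)) ≠ ⊤} with hSB
  have hCf : SC.Finite := (h3 k 0).1
  have hCc : SC.ncard = 2 ^ (k.choose 2) := by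
    have := (h3 k 0).2
    rw [zero_mul, add_zero] at this
    exact this
  have hBf : SB.Finite := (h3 m k).1.subset fun x hx => hx.1
  have := hCf.to_subtype
  have := hBf.to_subtype
  have key : Nat.card {G : SimpleGraph (Fin (k + m)) //
      Kry (adj G) (uv (Set.range (Fin.castAdd m))) ≠ ⊤} ≤ Nat.card (SC × SB) := by
    refine Nat.card_le_card_of_injective (fun G => (⟨(CGR_C k m (adj G.1), fun i => Fin.elim0 i), ?_⟩,
      ⟨(CGR_H k m (adj G.1), CGR_B k m (adj G.1)), ?_⟩)) ?_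
    · have hG := CGR_isGr G.1
      exact ⟨fun i j => hG.1 _ _, fun i => hG.2.1 _, fun i j => hG.2.2 _ _⟩
    · have hG := CGR_isGr G.1
      refine ⟨⟨fun i j => hG.1 _ _, fun i => hG.2.1 _, fun i j => hG.2.2 _ _⟩, fun hK => G.2 ?_⟩
      exact h2 k m (adj G.1) hG hK
    · rintro ⟨G, hG⟩ ⟨G', hG'⟩ h
      simp only [Prod.mk.injEq, Subtype.mk.injEq] at h
      obtain ⟨⟨e1, -⟩, e2, e3⟩ := h
      exact Subtype.ext (CGR_inj (CGR_ext (CGR_isGr G) (CGR_isGr G') e1 e2 e3))
  have hcard : Nat.card (SC × SB) = 2 ^ (k.choose 2) * SB.ncard := by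
    rw [Nat.card_prod, Nat.card_coe_set_eq, Nat.card_coe_set_eq, hCc]
  calc Nat.card {G : SimpleGraph (Fin (k + m)) //
      Kry (adj G) (uv (Set.range (Fin.castAdd m))) ≠ ⊤} * a
      ≤ Nat.card (SC × SB) * a := Nat.mul_le_mul_right a key
    _ = 2 ^ (k.choose 2) * (SB.ncard * a) := by rw [hcard, mul_assoc]
    _ ≤ 2 ^ (k.choose 2) * (b * 2 ^ (m.choose 2 + k * m)) := Nat.mul_le_mul_left _ h1
    _ = b * 2 ^ ((k + m).choose 2) := by
        rw [CGR_choose, pow_add, pow_add, pow_add]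
        ring

theorem CGR (h1 : KRY_stmt) (h2 : KRA_stmt) (h3 : CXF_stmt) : CGR_stmt := by
  intro L m hm
  exact CGR_main (3 * L + 3 * L + 5 * L) m (2 ^ (L + 1)) 9 h2 h3 (h1 L m hm)

end Pool.Agent.FS
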