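import Pool.Agent.helper78.FS.Spec

set_option autoImplicit false

namespace Pool.Agent.helper78.FS

open Finset Real
open Classical

noncomputable section

theorem CMB_mem_verts {V : Type} [DecidableEq V] (ℓ : Finset (Finset V)) (a : V) :
    a ∈ verts ℓ ↔ ∃ e ∈ ℓ, a ∈ e := by
  unfold verts; simp only [Finset.mem_biUnion, id]

theorem CMB_tri (hLNK : LNK_stmt) (hTRF : TRF_stmt) (hCYA : CYA_stmt) {V : Type} [DecidableEq V] {G : V → V → Prop}
    {Ω : Finset V → ZMod 2} {z : Finset (Finset V)} (hsym : ∀ x y, G x y → G y x) (hco : Coc G Ω)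
    (hmin : MinC G Ω z) (v : V) :
    ∀ a b c : V, a ≠ b → b ≠ c → a ≠ c → {a, b} ∈ lk z v → {b, c} ∈ lk z v → {a, c} ∈ lk z v → False := by
  obtain ⟨h1, h2, h3, h4⟩ := hLNK V G z v hmin.1
  intro a b c hab hbc hac e1 e2 e3
  have k1 := h1 _ e1
  have k2 := h1 _ e2
  have k3 := h1 _ e3
  have n1 : v ≠ a := fun h => k1.2.1 (by rw [h]; simp)
  have n2 : v ≠ b := fun h => k1.2.1 (by rw [h]; simp)
  have n3 : v ≠ c := fun h => k2.2.1 (by rw [h]; simp)
  exact hTRF hCYA V G Ω z hsym hco hmin v a b c hab hbc hac n1 n2 n3 k1.2.2 k2.2.2 k3.2.2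

theorem CMB_kh (hLNK : LNK_stmt) (hKAP : KAP_stmt) (hTRF : TRF_stmt) (hCYA : CYA_stmt) {V : Type} [DecidableEq V] {G : V → V → Prop}
    {Ω : Finset V → ZMod 2} {z : Finset (Finset V)} (hsym : ∀ x y, G x y → G y x) (hco : Coc G Ω)
    (hmin : MinC G Ω z) (v : V) :
    (6 - ((verts (lk z v)).card : ℤ) ≤ kh z v) ∧ ((verts (lk z v)).card ≤ 6 → 0 ≤ kh z v ∧
      (kh z v = 0 → ∃ u : ZMod 6 → V, Function.Injective u ∧ lk z v = hexE u)) := by
  obtain ⟨h1, h2, h3, h4⟩ := hLNK V G z v hmin.1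
  obtain ⟨k1, k2⟩ := hKAP V (lk z v) (fun e he => (h1 e he).1) h3
  constructor
  · unfold kh
    have : ((verts (lk z v)).card : ℤ) ≤ ((lk z v).card : ℤ) := by exact_mod_cast k1
    linarith
  · intro h6
    exact k2 h6 (CMB_tri hLNK hTRF hCYA hsym hco hmin v)

theorem CMB_flat (hLNK : LNK_stmt) (hKAP : KAP_stmt) (hTRF : TRF_stmt) (hCYA : CYA_stmt) {V : Type} [DecidableEq V] {G : V → V → Prop}
    {Ω : Finset V → ZMod 2} {z : Finset (Finset V)} {Bl : Finset V} (hsym : ∀ x y, G x y → G y x) (hirr : ∀ x, ¬ G x x) (hco : Coc G Ω)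
    (hmin : MinC G Ω z) (h6 : ∀ v ∉ Bl, ∀ S : Finset V, (∀ w ∈ S, G v w) → S.card ≤ 6) (v : V) (hv : v ∉ Bl) (hk : kh z v < 1) :
    ∃ u : ZMod 6 → V, Function.Injective u ∧ lk z v = hexE u ∧ (∀ w, G v w ↔ ∃ i, w = u i) ∧
      (∀ i, u i ∈ verts z) ∧ (∀ i, insert v ({u i, u (i + 1)} : Finset V) ∈ z) ∧ (∀ i, u i ≠ v) := by
  obtain ⟨h1, h2, h3, h4⟩ := hLNK V G z v hmin.1
  have hc : (verts (lk z v)).card ≤ 6 := h6 v hv _ (fun w hw => (h4 w hw).1)
  obtain ⟨k0, k1⟩ := (CMB_kh hLNK hKAP hTRF hCYA hsym hco hmin v).2 hc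
  obtain ⟨u, hu, hl⟩ := k1 (by omega)
  have hE : ∀ k : ZMod 6, ({u k, u (k + 1)} : Finset V) ∈ lk z v := by
    intro k; rw [hl]; exact Finset.mem_image_of_mem _ (Finset.mem_univ k)
  have hvk : ∀ i, u i ∈ verts (lk z v) := by
    intro i
    rw [CMB_mem_verts]
    exact ⟨_, hE i, by simp⟩
  have hG : ∀ i, G v (u i) := fun i => (h4 _ (hvk i)).1
  refine ⟨u, hu, hl, ?_, fun i => (h4 _ (hvk i)).2, fun i => (h1 _ (hE i)).2.2, ?_⟩
  · intro w
    constructor
    · intro hw
      by_contra hcon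
      push Not at hcon
      have hnot : w ∉ Finset.univ.image u := by
        intro h
        obtain ⟨i, -, hi⟩ := Finset.mem_image.mp h
        exact hcon i hi.symm
      have h7 : (insert w (Finset.univ.image u)).card = 7 := by
        rw [Finset.card_insert_of_notMem hnot, Finset.card_image_of_injective _ hu]
        rfl
      have := h6 v hv (insert w (Finset.univ.image u)) (by
        intro x hx
        rcases Finset.mem_insert.mp hx with h | h
        · rw [h]; exact hw
        · obtain ⟨i, -, hi⟩ := Finset.mem_image.mp h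
          rw [← hi]; exact hG i)
      omega
    · rintro ⟨i, rfl⟩; exact hG i
  · intro i h
    have := hG i
    rw [h] at this
    exact hirr v this

/-- a spot -/
def CMB_spot {V : Type} [DecidableEq V] (G : V → V → Prop) (z : Finset (Finset V)) (BP : Finset V) (v : V) : Prop :=
  v ∈ verts z ∧ v ∉ BP ∧ (∀ w, G v w → w ∉ BP) ∧
    ∃ u : ZMod 6 → V, Function.Injective u ∧ lk z v = hexE u ∧ (∀ w, G v w ↔ ∃ i, w = u i) ∧
      (∀ i, u i ∈ verts z) ∧ (∀ i, insert v ({u i, u (i + 1)} : Finset V) ∈ z) ∧ (∀ i, u i ≠ v) ∧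
      ∃ i j : ZMod 6, i ≠ j ∧ j ≠ i + 1 ∧ i ≠ j + 1 ∧ G (u i) (u j)

/-- the triangle of a spot -/
theorem CMB_spot_tri {V : Type} [DecidableEq V] {G : V → V → Prop} {z : Finset (Finset V)} {BP : Finset V} {v : V}
    (hsym : ∀ x y, G x y → G y x) (hspot : CMB_spot G z BP v)
    (hz : Cyc G z) (hLNK : LNK_stmt)
    (hflat : ∀ w ∈ verts z, w ∉ BP → ∃ u : ZMod 6 → V, (∀ x, G w x ↔ ∃ i, x = u i) ∧ ∀ i, insert w ({u i, u (i + 1)} : Finset V) ∈ z) :
    ∃ τ : Finset V, τ.card = 3 ∧ Cliq G τ ∧ τ ∉ z ∧ v ∈ τ ∧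
      (∃ u : ZMod 6 → V, Function.Injective u ∧ lk z v = hexE u ∧ ∀ a ∈ τ, a ≠ v → ∃ i, a = u i) ∧
      (∀ a ∈ τ, a ≠ v → G v a) ∧ ∀ e ∈ τ.powersetCard 2, e ∈ eds z := by
  obtain ⟨hvz, hvB, hnb, u, hu, hl, hN, hvk, hins, hne, i, j, hij, hji1, hij1, hG⟩ := hspot
  have hGv : ∀ k, G v (u k) := fun k => (hN _).mpr ⟨k, rfl⟩
  have huij : u i ≠ u j := fun h => hij (hu h)
  have hmemeds : ∀ (a b : V) (τ : Finset V), τ ∈ z → a ∈ τ → b ∈ τ → a ≠ b → ({a, b} : Finset V) ∈ eds z := by
    intro a b τ hτ ha hb hab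
    unfold eds
    rw [Finset.mem_biUnion]
    refine ⟨τ, hτ, ?_⟩
    rw [Finset.mem_powersetCard]
    refine ⟨?_, Finset.card_pair hab⟩
    intro x hx
    rcases Finset.mem_insert.mp hx with h | h
    · rw [h]; exact ha
    · rw [Finset.mem_singleton.mp h]; exact hb
  refine ⟨{v, u i, u j}, ?_, ?_, ?_, by simp, ⟨u, hu, hl, ?_⟩, ?_, ?_⟩
  · rw [Finset.card_eq_three]
    exact ⟨v, u i, u j, (hne i).symm, (hne j).symm, huij, rfl⟩
  · intro a ha b hb hab
    simp only [Finset.mem_insert, Finset.mem_singleton] at ha hb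
    rcases ha with rfl | rfl | rfl <;> rcases hb with rfl | rfl | rfl
    · exact absurd rfl hab
    · exact hGv i
    · exact hGv j
    · exact hsym _ _ (hGv i)
    · exact absurd rfl hab
    · exact hG
    · exact hsym _ _ (hGv j)
    · exact hsym _ _ hG
    · exact absurd rfl hab
  · intro h
    have hvn : v ∉ ({u i, u j} : Finset V) := by
      simp only [Finset.mem_insert, Finset.mem_singleton, not_or]
      exact ⟨(hne i).symm, (hne j).symm⟩
    have h2 : ({u i, u j} : Finset V) ∈ lk z v := (hLNK V G z v hz).2.1 _ hvn h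
    rw [hl] at h2
    obtain ⟨k, -, hk⟩ := Finset.mem_image.mp h2
    have m1 : u k ∈ ({u i, u j} : Finset V) := by rw [← hk]; simp
    have m2 : u (k + 1) ∈ ({u i, u j} : Finset V) := by rw [← hk]; simp
    have n1 : k = i ∨ k = j := by
      simp only [Finset.mem_insert, Finset.mem_singleton] at m1
      rcases m1 with h | h
      · exact Or.inl (hu h)
      · exact Or.inr (hu h)
    have n2 : k + 1 = i ∨ k + 1 = j := by
      simp only [Finset.mem_insert, Finset.mem_singleton] at m2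
      rcases m2 with h | h
      · exact Or.inl (hu h)
      · exact Or.inr (hu h)
    have n3 : k ≠ k + 1 := by
      clear * -
      revert k; decide
    rcases n1 with rfl | rfl <;> rcases n2 with h | h
    · exact n3 h.symm
    · exact hji1 h.symm
    · exact hij1 h.symm
    · exact n3 h.symm
  · intro a ha hav
    simp only [Finset.mem_insert, Finset.mem_singleton] at ha
    rcases ha with rfl | rfl | rfl
    · exact absurd rfl hav
    · exact ⟨i, rfl⟩
    · exact ⟨j, rfl⟩
  · intro a ha hav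
    simp only [Finset.mem_insert, Finset.mem_singleton] at ha
    rcases ha with rfl | rfl | rfl
    · exact absurd rfl hav
    · exact hGv i
    · exact hGv j
  · intro e he
    rw [Finset.mem_powersetCard] at he
    obtain ⟨hsub, hcard⟩ := he
    obtain ⟨a, b, hab, rfl⟩ := Finset.card_eq_two.mp hcard
    have ha : a ∈ ({v, u i, u j} : Finset V) := hsub (by simp)
    have hb : b ∈ ({v, u i, u j} : Finset V) := hsub (by simp)
    have hvi : ∀ k, ({v, u k} : Finset V) ∈ eds z := fun k =>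
      hmemeds v (u k) _ (hins k) (by simp) (by simp) (hne k).symm
    have hij' : ({u i, u j} : Finset V) ∈ eds z := by
      obtain ⟨u', hN', hins'⟩ := hflat (u i) (hvk i) (hnb _ (hGv i))
      obtain ⟨k, hk⟩ := (hN' (u j)).mp hG
      exact hmemeds (u i) (u j) _ (hins' k) (by simp) (by rw [hk]; simp) huij
    simp only [Finset.mem_insert, Finset.mem_singleton] at ha hb
    rcases ha with rfl | rfl | rfl <;> rcases hb with rfl | rfl | rfl
    · exact absurd rfl hab
    · exact hvi i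
    · exact hvi j
    · rw [Finset.pair_comm]; exact hvi i
    · exact absurd rfl hab
    · exact hij'
    · rw [Finset.pair_comm]; exact hvi j
    · rw [Finset.pair_comm]; exact hij'
    · exact absurd rfl hab

/-- an admissible set of spots -/
def CMB_ok {V : Type} [DecidableEq V] (G : V → V → Prop) (z : Finset (Finset V)) (BP : Finset V) (P : Finset V) : Prop :=
  (∀ v ∈ P, CMB_spot G z BP v) ∧ ∀ v ∈ P, ∀ w ∈ P, v ≠ w → ¬ G v w

theorem CMB : CMB_stmt := by
  intro hCYA hSBC hTRF hLNK hKAP hSUM hLIN hCHI hARC hSPT V _ G Ω Bl M hsym hirr hM h6 hco hex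
  -- the minimal cycle
  obtain ⟨z, hmin⟩ : ∃ z, MinC G Ω z := by
    have hP : ∃ n : ℕ, ∃ z, Cyc G z ∧ wt Ω z = 1 ∧ z.card = n := by
      obtain ⟨z0, h1, h2⟩ := hex
      exact ⟨_, z0, h1, h2, rfl⟩
    obtain ⟨z, h1, h2, h3⟩ := Nat.find_spec hP
    refine ⟨z, h1, h2, ?_⟩
    intro z' h4 h5
    rw [h3]
    exact Nat.find_min' hP ⟨z', h4, h5, rfl⟩
  have hz := hmin.1
  have hkh := fun v => CMB_kh hLNK hKAP hTRF hCYA hsym hco hmin v
  have hcM : ∀ v, (verts (lk z v)).card ≤ M := fun v => hM v _ (fun w hw => ((hLNK V G z v hz).2.2.2 w hw).1)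
  set pos : Finset V := (verts z \ Bl).filter (fun v => 1 ≤ kh z v) with hpos
  set BP : Finset V := Bl ∪ pos with hBP
  have hflat : ∀ v ∈ verts z, v ∉ BP → ∃ u : ZMod 6 → V, Function.Injective u ∧ lk z v = hexE u ∧ (∀ w, G v w ↔ ∃ i, w = u i) ∧
      (∀ i, u i ∈ verts z) ∧ (∀ i, insert v ({u i, u (i + 1)} : Finset V) ∈ z) ∧ (∀ i, u i ≠ v) := by
    intro v hv hvB
    rw [hBP, Finset.mem_union, not_or] at hvB
    apply CMB_flat hLNK hKAP hTRF hCYA hsym hirr hco hmin h6 v hvB.1
    by_contra hcon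
    apply hvB.2
    rw [hpos, Finset.mem_filter, Finset.mem_sdiff]
    exact ⟨⟨hv, hvB.1⟩, by omega⟩
  have hflat' : ∀ w ∈ verts z, w ∉ BP → ∃ u : ZMod 6 → V, (∀ x, G w x ↔ ∃ i, x = u i) ∧ ∀ i, insert w ({u i, u (i + 1)} : Finset V) ∈ z := by
    intro w hw hwB
    obtain ⟨u, _, _, h3, _, h5, _⟩ := hflat w hw hwB
    exact ⟨u, h3, h5⟩
  -- maximal set of spots
  obtain ⟨P, hPmem, hPmax⟩ := Finset.exists_max_image
    ((verts z).powerset.filter (fun P => CMB_ok G z BP P)) Finset.card
    ⟨∅, by simp [CMB_ok]⟩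
  rw [Finset.mem_filter, Finset.mem_powerset] at hPmem
  obtain ⟨hPz, hPs, hPn⟩ := hPmem
  -- triangles
  have htri : ∀ v : V, ∃ τ : Finset V, v ∈ P → (τ.card = 3 ∧ Cliq G τ ∧ τ ∉ z ∧ v ∈ τ ∧
      (∃ u : ZMod 6 → V, Function.Injective u ∧ lk z v = hexE u ∧ ∀ a ∈ τ, a ≠ v → ∃ i, a = u i) ∧
      (∀ a ∈ τ, a ≠ v → G v a) ∧ ∀ e ∈ τ.powersetCard 2, e ∈ eds z) := by
    intro v
    by_cases hv : v ∈ P
    · obtain ⟨τ, h⟩ := CMB_spot_tri hsym (hPs v hv) hz hLNK hflat'
      exact ⟨τ, fun _ => h⟩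
    · exact ⟨∅, fun h => absurd h hv⟩
  choose tt htt using htri
  have httinj : ∀ v ∈ P, ∀ w ∈ P, tt v = tt w → v = w := by
    intro v hv w hw h
    by_contra hne
    have h1 : w ∈ tt v := by rw [h]; exact (htt w hw).2.2.2.1
    exact hPn v hv w hw hne ((htt v hv).2.2.2.2.2.1 w h1 (fun h => hne h.symm))
  have hzne : z.Nonempty := by
    rw [Finset.nonempty_iff_ne_empty]
    intro h
    have := hmin.2.1
    rw [h] at this
    simp [wt] at this
  have hVne : Nonempty V := by
    obtain ⟨τ, hτ⟩ := hzne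
    have h3 := (hz.1 τ hτ).1
    have : τ.Nonempty := by rw [← Finset.card_pos]; omega
    exact ⟨this.choose⟩
  set ZP : Finset (Finset V) := P.image tt with hZP
  set ap : Finset V → V := fun τ => if h : ∃ v ∈ P, tt v = τ then h.choose else Classical.choice hVne with hap
  have hapv : ∀ v ∈ P, ap (tt v) = v := by
    intro v hv
    have h : ∃ w ∈ P, tt w = tt v := ⟨v, hv, rfl⟩
    simp only [hap]
    rw [dif_pos h]
    exact httinj _ h.choose_spec.1 v hv h.choose_spec.2
  have hspt : ∀ y, Cyc G y → y ⊆ z ∪ ZP → y = ∅ ∨ y = z := by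
    apply hSPT hCYA hSBC hLNK hARC V G Ω z ZP ap hmin
    intro τ hτ
    obtain ⟨v, hv, rfl⟩ := Finset.mem_image.mp hτ
    obtain ⟨k1, k2, k3, k4, k5, k6, k7⟩ := htt v hv
    rw [hapv v hv]
    refine ⟨k1, k2, k3, k4, k5, ?_, ?_⟩
    · intro τ' hτ' hne hmem
      obtain ⟨w, hw, rfl⟩ := Finset.mem_image.mp hτ'
      have hvw : v ≠ w := fun h => hne (by rw [h])
      exact hPn w hw v hv hvw.symm ((htt w hw).2.2.2.2.2.1 v hmem hvw)
    · intro τ' hτ' hne ρ hρ h1 h2
      obtain ⟨w, hw, rfl⟩ := Finset.mem_image.mp hτ'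
      rw [hapv w hw] at h2
      have hvw : v ≠ w := fun h => hne (by rw [h])
      exact hPn v hv w hw hvw ((hz.1 ρ hρ).2 v h1 w h2 hvw)
  have hchi := hCHI hLIN V G z (z ∪ ZP) hz Finset.subset_union_left
    (by
      intro τ hτ
      rcases Finset.mem_union.mp hτ with h | h
      · exact hz.1 τ h
      · obtain ⟨v, hv, rfl⟩ := Finset.mem_image.mp h
        exact ⟨(htt v hv).1, (htt v hv).2.1⟩)
    (by
      unfold eds
      rw [Finset.union_biUnion]
      apply Finset.union_eq_left.mpr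
      intro e he
      obtain ⟨τ, hτ, heτ⟩ := Finset.mem_biUnion.mp he
      obtain ⟨v, hv, rfl⟩ := Finset.mem_image.mp hτ
      exact (htt v hv).2.2.2.2.2.2 e heτ)
    hspt
  have hcardZP : ZP.card = P.card := Finset.card_image_of_injOn (fun v hv w hw h => httinj v hv w hw h)
  have hcardU : (z ∪ ZP).card = z.card + P.card := by
    rw [Finset.card_union_of_disjoint, hcardZP]
    rw [Finset.disjoint_left]
    intro τ h1 h2
    obtain ⟨v, hv, rfl⟩ := Finset.mem_image.mp h2
    exact (htt v hv).2.2.1 h1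
  rw [hcardU] at hchi
  have hsum := hSUM V z (fun τ hτ => (hz.1 τ hτ).1)
  have hlow : (pos.card : ℤ) - (M : ℤ) * Bl.card ≤ ∑ v ∈ verts z, kh z v := by
    have hsplit : ∑ v ∈ verts z, kh z v = ∑ v ∈ verts z \ Bl, kh z v + ∑ v ∈ verts z ∩ Bl, kh z v := by
      rw [← Finset.sum_union]
      · rw [Finset.sdiff_union_inter]
      · exact Finset.disjoint_sdiff_inter _ _
    rw [hsplit]
    have h1 : (pos.card : ℤ) ≤ ∑ v ∈ verts z \ Bl, kh z v := by
      calc (pos.card : ℤ) = ∑ _v ∈ pos, (1 : ℤ) := by rw [Finset.sum_const]; simp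
        _ ≤ ∑ v ∈ pos, kh z v := Finset.sum_le_sum (fun v hv => (Finset.mem_filter.mp hv).2)
        _ ≤ ∑ v ∈ verts z \ Bl, kh z v := by
            apply Finset.sum_le_sum_of_subset_of_nonneg (Finset.filter_subset _ _)
            intro v hv _
            rw [Finset.mem_sdiff] at hv
            exact ((hkh v).2 (h6 v hv.2 _ (fun w hw => ((hLNK V G z v hz).2.2.2 w hw).1))).1
    have h2 : -((M : ℤ) * Bl.card) ≤ ∑ v ∈ verts z ∩ Bl, kh z v := by
      calc -((M : ℤ) * Bl.card) ≤ -((M : ℤ) * (verts z ∩ Bl).card) := by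
            have : ((verts z ∩ Bl).card : ℤ) ≤ Bl.card := by exact_mod_cast Finset.card_le_card Finset.inter_subset_right
            have hM0 : (0 : ℤ) ≤ M := by positivity
            nlinarith
        _ = ∑ _v ∈ verts z ∩ Bl, (-(M : ℤ)) := by rw [Finset.sum_const, nsmul_eq_mul]; ring
        _ ≤ ∑ v ∈ verts z ∩ Bl, kh z v := by
            apply Finset.sum_le_sum
            intro v _
            have h3 := (hkh v).1
            have h4 : ((verts (lk z v)).card : ℤ) ≤ M := by exact_mod_cast hcM v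
            linarith
    linarith
  refine ⟨z, Bl ∪ pos ∪ P, hz, hmin.2.1, ?_, ?_, ?_⟩
  · exact (Finset.subset_union_left).trans Finset.subset_union_left
  · have hc1 : (Bl ∪ pos ∪ P).card ≤ Bl.card + pos.card + P.card :=
      (Finset.card_union_le _ _).trans (Nat.add_le_add_right (Finset.card_union_le _ _) _)
    have hchi' : ((verts z).card : ℤ) + (z.card + P.card) ≤ (eds z).card + 2 := by exact_mod_cast hchi
    have h3 : (pos.card : ℤ) + 6 * P.card ≤ 12 + M * Bl.card := by
      rw [hsum] at hlow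
      linarith
    have h4 : (pos.card : ℤ) + P.card ≤ 12 + M * Bl.card := by
      have : (0 : ℤ) ≤ P.card := by positivity
      linarith
    have h5 : pos.card + P.card ≤ 12 + M * Bl.card := by exact_mod_cast h4
    calc (Bl ∪ pos ∪ P).card ≤ Bl.card + pos.card + P.card := hc1
      _ ≤ Bl.card + (12 + M * Bl.card) := by omega
      _ = (M + 1) * Bl.card + 12 := by ring
  · intro v hv hvB hnb
    have hvBP : v ∉ BP := fun h => hvB (Finset.mem_union_left _ h)
    have hvP : v ∉ P := fun h => hvB (Finset.mem_union_right _ h)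
    obtain ⟨u, hu, hl, hN, hvk, hins, hne⟩ := hflat v hv hvBP
    refine ⟨⟨u, hu, hN, ?_⟩, ?_⟩
    · intro i j
      constructor
      · intro hG
        by_contra hcon
        push Not at hcon
        have hij : i ≠ j := by
          intro h; rw [h] at hG; exact hirr _ hG
        have hspot : CMB_spot G z BP v :=
          ⟨hv, hvBP, fun w hw h => hnb w hw (Finset.mem_union_left _ h), u, hu, hl, hN, hvk, hins, hne, i, j, hij, hcon.1, hcon.2, hG⟩
        have hin : insert v P ∈ ((verts z).powerset.filter (fun P => CMB_ok G z BP P)) := by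
          rw [Finset.mem_filter, Finset.mem_powerset]
          refine ⟨Finset.insert_subset hv hPz, ?_, ?_⟩
          · intro w hw
            rcases Finset.mem_insert.mp hw with h | h
            · rw [h]; exact hspot
            · exact hPs w h
          · intro a ha b hb hab hGab
            rcases Finset.mem_insert.mp ha with h1 | h1 <;> rcases Finset.mem_insert.mp hb with h2 | h2
            · exact hab (h1.trans h2.symm)
            · rw [h1] at hGab
              exact hnb b hGab (Finset.mem_union_right _ h2)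
            · rw [h2] at hGab
              exact hnb a (hsym _ _ hGab) (Finset.mem_union_right _ h1)
            · exact hPn a h1 b h2 hab hGab
        have := hPmax _ hin
        rw [Finset.card_insert_of_notMem hvP] at this
        omega
      · have hcons : ∀ k, G (u k) (u (k + 1)) := by
          intro k
          have hkk : u k ≠ u (k + 1) := by
            intro h
            have h2 := hu h
            clear * - h2
            revert h2; revert k; decide
          exact (hz.1 _ (hins k)).2 (u k) (by simp) (u (k + 1)) (by simp) hkk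
        rintro (h | h)
        · rw [h]; exact hcons i
        · rw [h]; exact hsym _ _ (hcons j)
    · intro w hw
      obtain ⟨i, rfl⟩ := (hN w).mp hw
      exact hvk i

end

end Pool.Agent.helper78.FS
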