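import Pool.Agent.helper25.FS.FSFin
import Pool.Agent.helper84.FS.SpecF
import Pool.Agent.helper62.EN.All

/-!
# MP_07c750: the final theorem of the project FS, uniform version (DenseGeodesics)
-/

set_option autoImplicit false

open scoped MatrixGroups ContDiff Topology UpperHalfPlane ENNReal NNReal
open UpperHalfPlane MeasureTheory Filter Set

namespace Pool.Agent.FS

open Pool.Agent.RS
open Pool.Agent.MS (bq BB BA SF pf)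
open Pool.Agent.EN (XG MG mkX mkM fl pr Ux nr)
open Pool.Agent.ER (Low)
open Pool.Agent.IR (loc)

/-- a finite family of open sets such that every ball of radius `r` contains one of them -/
theorem dg_cover (Γ : Subgroup SL(2, ℝ)) (hΓ : QU.SurfaceGroup Γ) (r : ℝ) (hr : 0 < r) :
    ∃ (m : ℕ) (O : ℕ → Set (XG Γ)), (∀ k < m, IsOpen (O k) ∧ (O k).Nonempty) ∧ ∀ y : XG Γ, ∃ k < m, O k ⊆ Ux Γ r y := by
  obtain ⟨-, -, hmc, hmo, hms, -, -, -, -, -, heq, -⟩ := EN.A_XFL Γ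
  have : CompactSpace (XG Γ) := (EN.A_XTX Γ hΓ).1
  have hV : {h : SL(2, ℝ) | nr r h} ∈ 𝓝 (1 : SL(2, ℝ)) := by
    have hc : ∀ i j : Fin 2, Continuous fun h : SL(2, ℝ) => |h.1 i j - (1 : Matrix (Fin 2) (Fin 2) ℝ) i j| := by
      intro i j
      exact ((continuous_subtype_val.matrix_elem i j).sub continuous_const).abs
    have ho : IsOpen {h : SL(2, ℝ) | nr r h} := by
      have : {h : SL(2, ℝ) | nr r h} = ⋂ i : Fin 2, ⋂ j : Fin 2, {h : SL(2, ℝ) | |h.1 i j - (1 : Matrix (Fin 2) (Fin 2) ℝ) i j| < r} := by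
        ext h
        simp [nr]
      rw [this]
      exact isOpen_iInter_of_finite fun i => isOpen_iInter_of_finite fun j => isOpen_lt (hc i j) continuous_const
    refine ho.mem_nhds ?_
    intro i j
    simpa using hr
  have hcont : Continuous fun p : SL(2, ℝ) × SL(2, ℝ) => p.1⁻¹ * p.2 := continuous_fst.inv.mul continuous_snd
  have h1 : (fun p : SL(2, ℝ) × SL(2, ℝ) => p.1⁻¹ * p.2) ⁻¹' {h : SL(2, ℝ) | nr r h} ∈ 𝓝 ((1 : SL(2, ℝ)), (1 : SL(2, ℝ))) := by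
    refine hcont.continuousAt.preimage_mem_nhds ?_
    simpa using hV
  rw [nhds_prod_eq] at h1
  obtain ⟨W0, hW0, hW⟩ := mem_prod_same_iff.1 h1
  obtain ⟨W, hWs, hWo, hW1⟩ := mem_nhds_iff.1 hW0
  have hg : ∀ x : XG Γ, ∃ g : SL(2, ℝ), mkX Γ g = x := hms
  choose G hG using hg
  obtain ⟨U, hUdef⟩ : ∃ U : XG Γ → Set (XG Γ), U = fun x => mkX Γ '' ((fun w => G x * w) '' W) := ⟨_, rfl⟩
  have hUo : ∀ x, IsOpen (U x) := by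
    intro x
    rw [hUdef]
    exact hmo _ ((isOpenMap_mul_left (G x)) _ hWo)
  have hUx : ∀ x, x ∈ U x := by
    intro x
    rw [hUdef]
    exact ⟨G x, ⟨1, hW1, mul_one _⟩, hG x⟩
  obtain ⟨t, ht⟩ := CompactSpace.elim_nhds_subcover U fun x => (hUo x).mem_nhds (hUx x)
  refine ⟨t.toList.length, fun k => U (t.toList.getD k (mkX Γ 1)), fun k _ => ⟨hUo _, ⟨_, hUx _⟩⟩, ?_⟩
  intro y
  have hy : y ∈ ⋃ x ∈ t, U x := by rw [ht]; trivial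
  obtain ⟨x, hx, hyx⟩ := mem_iUnion₂.1 hy
  obtain ⟨k, hk, hkx⟩ := List.mem_iff_getElem.1 (Finset.mem_toList.2 hx)
  refine ⟨k, hk, ?_⟩
  have e1 : t.toList.getD k (mkX Γ 1) = x := by
    rw [List.getD_eq_getElem _ _ hk, hkx]
  show U (t.toList.getD k (mkX Γ 1)) ⊆ Ux Γ r y
  rw [e1]
  rw [hUdef] at hyx ⊢
  obtain ⟨_, ⟨w, hw, rfl⟩, hwy⟩ := hyx
  rintro z ⟨_, ⟨w', hw', rfl⟩, hz⟩
  refine ⟨G x * w, w⁻¹ * w', ?_, hwy.symm, ?_⟩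
  · have := hW (Set.mk_mem_prod (hWs hw) (hWs hw'))
    exact this
  · rw [← hz]
    show mkX Γ (G x * w') = mkX Γ (G x * w * (w⁻¹ * w'))
    rw [mul_assoc, mul_inv_cancel_left]

/-- the time spent in a set up to time `T` -/
theorem dg_mono (Γ : Subgroup SL(2, ℝ)) (x : XG Γ) (A B : Set (XG Γ)) (T : ℝ) (h : A ⊆ B) :
    volume.real {t : ℝ | t ∈ Icc (0 : ℝ) T ∧ fl Γ t x ∈ A} ≤ volume.real {t : ℝ | t ∈ Icc (0 : ℝ) T ∧ fl Γ t x ∈ B} := by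
  refine measureReal_mono (fun t ht => ⟨ht.1, h ht.2⟩) ?_
  exact ne_top_of_le_ne_top (measure_Icc_lt_top (a := (0 : ℝ)) (b := T)).ne (measure_mono fun t ht => ht.1)

/-- finite time, balls, for all measures with the property `GP` -/
theorem dg_fin (hFRM : FRM_stmt) (Γ : Subgroup SL(2, ℝ)) (hΓ : QU.SurfaceGroup Γ) (r : ℝ) (hr : 0 < r) :
    ∃ c : ℝ, 0 < c ∧ ∀ K e : ℝ, 1 ≤ K → 0 < e → ∃ n0 : ℕ, ∀ (μ : Measure (XG Γ)) (n : ℕ), n0 ≤ n → IsProbabilityMeasure μ → IR.GP Γ μ K →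
      μ {x : XG Γ | ∃ y : XG Γ, volume.real {t : ℝ | t ∈ Icc (0 : ℝ) n ∧ fl Γ t x ∈ Ux Γ r y} ≤ c * n} ≤ ENNReal.ofReal (1 / 2 + e) := by
  obtain ⟨m, O, hO, hcov⟩ := dg_cover Γ hΓ r hr
  obtain ⟨c, hc, H⟩ := hFRM Γ m O hΓ hO
  refine ⟨c, hc, fun K e hK he => ?_⟩
  obtain ⟨n0, hn0⟩ := H K e hK he
  refine ⟨n0, fun μ n hn hμ hGP => (measure_mono ?_).trans (hn0 μ n hn hμ hGP)⟩
  rintro x ⟨y, hy⟩
  obtain ⟨k, hk, hky⟩ := hcov y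
  exact ⟨k, hk, (dg_mono Γ x _ _ _ hky).trans hy⟩

/-- from finite time to infinite time -/
theorem dg_inf (Γ : Subgroup SL(2, ℝ)) (μ : Measure (XG Γ)) (r c : ℝ)
    (h : ∀ e : ℝ, 0 < e → ∃ n0 : ℕ, ∀ n : ℕ, n0 ≤ n → μ {x : XG Γ | ∃ y : XG Γ, volume.real {t : ℝ | t ∈ Icc (0 : ℝ) n ∧ fl Γ t x ∈ Ux Γ r y} ≤ c * n} ≤ ENNReal.ofReal (1 / 2 + e)) :
    μ {x : XG Γ | ∃ (y : XG Γ) (T0 : ℝ), ∀ T : ℝ, T0 ≤ T → volume.real {t : ℝ | t ∈ Icc (0 : ℝ) T ∧ fl Γ t x ∈ Ux Γ r y} ≤ c * T} ≤ 1 / 2 := by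
  obtain ⟨A, hA⟩ : ∃ A : ℕ → Set (XG Γ), A = fun n : ℕ => {x : XG Γ | ∃ y : XG Γ, volume.real {t : ℝ | t ∈ Icc (0 : ℝ) n ∧ fl Γ t x ∈ Ux Γ r y} ≤ c * n} := ⟨_, rfl⟩
  have hsub : {x : XG Γ | ∃ (y : XG Γ) (T0 : ℝ), ∀ T : ℝ, T0 ≤ T → volume.real {t : ℝ | t ∈ Icc (0 : ℝ) T ∧ fl Γ t x ∈ Ux Γ r y} ≤ c * T} ⊆ ⋃ N : ℕ, ⋂ n ∈ Ici N, A n := by
    rintro x ⟨y, T0, hT⟩
    refine mem_iUnion.2 ⟨⌈T0⌉₊, mem_iInter₂.2 fun n hn => ?_⟩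
    rw [hA]
    exact ⟨y, hT n ((Nat.le_ceil T0).trans (by exact_mod_cast hn))⟩
  refine (measure_mono hsub).trans ?_
  have hmono : Monotone fun N : ℕ => ⋂ n ∈ Ici N, A n := by
    intro N N' hN x hx
    refine mem_iInter₂.2 fun n hn => mem_iInter₂.1 hx n (le_trans hN hn)
  rw [hmono.measure_iUnion]
  refine iSup_le fun N => ?_
  have h2 : (1 / 2 : ℝ≥0∞) = ENNReal.ofReal (1 / 2) := by
    rw [ENNReal.ofReal_div_of_pos two_pos]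
    simp
  rw [h2]
  refine ENNReal.le_of_forall_pos_le_add fun e he _ => ?_
  obtain ⟨n0, hn0⟩ := h e (by exact_mod_cast he)
  refine (measure_mono (fun x hx => mem_iInter₂.1 hx (max N n0) (le_max_left _ _))).trans ?_
  have h3 := hn0 (max N n0) (le_max_right _ _)
  rw [hA]
  refine h3.trans (le_of_eq ?_)
  rw [ENNReal.ofReal_add (by norm_num) (by positivity), ENNReal.ofReal_coe_nnreal]

theorem dg_open (Γ : Subgroup SL(2, ℝ)) (r : ℝ) (y : XG Γ) : IsOpen (Ux Γ r y) := by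
  obtain ⟨-, -, hmc, hmo, hms, -, -, -, -, -, heq, -⟩ := EN.A_XFL Γ
  have hc : ∀ i j : Fin 2, Continuous fun h : SL(2, ℝ) => |h.1 i j - (1 : Matrix (Fin 2) (Fin 2) ℝ) i j| := by
    intro i j
    exact ((continuous_subtype_val.matrix_elem i j).sub continuous_const).abs
  have ho : IsOpen {h : SL(2, ℝ) | nr r h} := by
    have : {h : SL(2, ℝ) | nr r h} = ⋂ i : Fin 2, ⋂ j : Fin 2, {h : SL(2, ℝ) | |h.1 i j - (1 : Matrix (Fin 2) (Fin 2) ℝ) i j| < r} := by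
      ext h
      simp [nr]
    rw [this]
    exact isOpen_iInter_of_finite fun i => isOpen_iInter_of_finite fun j => isOpen_lt (hc i j) continuous_const
  have : Ux Γ r y = ⋃ g ∈ {g : SL(2, ℝ) | y = mkX Γ g}, mkX Γ '' ((fun h => g * h) '' {h : SL(2, ℝ) | nr r h}) := by
    ext z
    constructor
    · rintro ⟨g, h, hh, hy, hz⟩
      exact mem_iUnion₂.2 ⟨g, hy, g * h, ⟨h, hh, rfl⟩, hz.symm⟩
    · intro hz
      obtain ⟨g, hy, _, ⟨h, hh, rfl⟩, hz⟩ := mem_iUnion₂.1 hz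
      exact ⟨g, h, hh, hy, hz.symm⟩
  rw [this]
  exact isOpen_biUnion fun g _ => hmo _ ((isOpenMap_mul_left g) _ ho)

/-- the mean time spent in an open set -/
theorem dg_tonelli (Γ : Subgroup SL(2, ℝ)) (μ : Measure (XG Γ)) (hμ : IsProbabilityMeasure μ) (hfl : ∀ t, μ.map (fl Γ t) = μ) (B : Set (XG Γ)) (hB : IsOpen B) (n : ℕ) :
    Measurable (fun x : XG Γ => volume {t : ℝ | t ∈ Icc (0 : ℝ) n ∧ fl Γ t x ∈ B}) ∧ ∫⁻ x, volume {t : ℝ | t ∈ Icc (0 : ℝ) n ∧ fl Γ t x ∈ B} ∂μ = ENNReal.ofReal n * μ B := by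
  obtain ⟨hfo, -, -, -, -, -, -, -, -, -, -, -⟩ := EN.A_XFL Γ
  have hcj : Continuous fun q : ℝ × XG Γ => fl Γ q.1 q.2 := hfo.cont
  obtain ⟨S, hS⟩ : ∃ S : Set (ℝ × XG Γ), S = {q | q.1 ∈ Icc (0 : ℝ) n ∧ fl Γ q.1 q.2 ∈ B} := ⟨_, rfl⟩
  have hSm : MeasurableSet S := by
    rw [hS]
    exact (measurable_fst measurableSet_Icc).inter (hcj.measurable hB.measurableSet)
  have e1 : ∀ x : XG Γ, (fun t : ℝ => (t, x)) ⁻¹' S = {t : ℝ | t ∈ Icc (0 : ℝ) n ∧ fl Γ t x ∈ B} := by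
    intro x
    rw [hS]
    rfl
  have e2 : ∀ t : ℝ, μ (Prod.mk t ⁻¹' S) = (Icc (0 : ℝ) n).indicator (fun _ => μ B) t := by
    intro t
    have hct : Continuous (fl Γ t) := hcj.comp (Continuous.prodMk_right t)
    rw [hS]
    by_cases ht : t ∈ Icc (0 : ℝ) n
    · have : Prod.mk t ⁻¹' {q : ℝ × XG Γ | q.1 ∈ Icc (0 : ℝ) n ∧ fl Γ q.1 q.2 ∈ B} = fl Γ t ⁻¹' B := by
        ext x
        constructor
        · exact fun h => h.2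
        · exact fun h => ⟨ht, h⟩
      rw [this, indicator_of_mem ht, ← Measure.map_apply hct.measurable hB.measurableSet, hfl t]
    · have : Prod.mk t ⁻¹' {q : ℝ × XG Γ | q.1 ∈ Icc (0 : ℝ) n ∧ fl Γ q.1 q.2 ∈ B} = ∅ := by
        ext x
        constructor
        · exact fun h => ht h.1
        · exact fun h => h.elim
      rw [this, indicator_of_notMem ht, measure_empty]
  have hm : Measurable (fun x : XG Γ => volume ((fun t : ℝ => (t, x)) ⁻¹' S)) := measurable_measure_prodMk_right hSm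
  have h1 : ((volume : Measure ℝ).prod μ) S = ∫⁻ x, volume ((fun t : ℝ => (t, x)) ⁻¹' S) ∂μ := Measure.prod_apply_symm hSm
  have h2 : ((volume : Measure ℝ).prod μ) S = ∫⁻ t, μ (Prod.mk t ⁻¹' S) := Measure.prod_apply hSm
  simp only [e1] at h1 hm
  refine ⟨hm, ?_⟩
  rw [← h1, h2]
  simp only [e2]
  rw [lintegral_indicator measurableSet_Icc, lintegral_const, Measure.restrict_apply_univ, Real.volume_Icc, sub_zero, mul_comm]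

/-- the mass of a ball -/
theorem dg_mass (Γ : Subgroup SL(2, ℝ)) (μ : Measure (XG Γ)) (hμ : IsProbabilityMeasure μ) (hfl : ∀ t, μ.map (fl Γ t) = μ) (r c : ℝ) (hc : 0 < c)
    (h : ∀ e : ℝ, 0 < e → ∃ n0 : ℕ, ∀ n : ℕ, n0 ≤ n → μ {x : XG Γ | ∃ y : XG Γ, volume.real {t : ℝ | t ∈ Icc (0 : ℝ) n ∧ fl Γ t x ∈ Ux Γ r y} ≤ c * n} ≤ ENNReal.ofReal (1 / 2 + e)) (y : XG Γ) :
    ENNReal.ofReal (c / 2) ≤ μ (Ux Γ r y) := by
  have hB := dg_open Γ r y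
  obtain ⟨b, hb⟩ : ∃ b : ℝ, b = μ.real (Ux Γ r y) := ⟨_, rfl⟩
  have hbe : μ (Ux Γ r y) = ENNReal.ofReal b := by
    rw [hb, ofReal_measureReal (measure_ne_top μ _)]
  have hb0 : 0 ≤ b := by rw [hb]; exact measureReal_nonneg
  have key : ∀ e : ℝ, 0 < e → e < 1 / 2 → c * (1 / 2 - e) ≤ b := by
    intro e he he2
    obtain ⟨n0, hn0⟩ := h e he
    obtain ⟨n, hn⟩ : ∃ n : ℕ, n = max n0 1 := ⟨_, rfl⟩
    have hn1 : 1 ≤ n := hn ▸ le_max_right _ _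
    have hnr : (0 : ℝ) < n := by exact_mod_cast hn1
    have h0 := hn0 n (hn ▸ le_max_left _ _)
    obtain ⟨hTm, hTi⟩ := dg_tonelli Γ μ hμ hfl _ hB n
    have h1 := mul_meas_ge_le_lintegral (μ := μ) hTm (ENNReal.ofReal (c * n))
    rw [hTi, hbe] at h1
    have h3 : ENNReal.ofReal (1 / 2 - e) ≤ μ {x : XG Γ | ENNReal.ofReal (c * n) ≤ volume {t : ℝ | t ∈ Icc (0 : ℝ) n ∧ fl Γ t x ∈ Ux Γ r y}} := by
      have hcov : (univ : Set (XG Γ)) ⊆ {x : XG Γ | ∃ y : XG Γ, volume.real {t : ℝ | t ∈ Icc (0 : ℝ) n ∧ fl Γ t x ∈ Ux Γ r y} ≤ c * n} ∪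
          {x : XG Γ | ENNReal.ofReal (c * n) ≤ volume {t : ℝ | t ∈ Icc (0 : ℝ) n ∧ fl Γ t x ∈ Ux Γ r y}} := by
        intro x _
        by_cases hx : volume.real {t : ℝ | t ∈ Icc (0 : ℝ) n ∧ fl Γ t x ∈ Ux Γ r y} ≤ c * n
        · exact Or.inl ⟨y, hx⟩
        · right
          have hne : volume {t : ℝ | t ∈ Icc (0 : ℝ) n ∧ fl Γ t x ∈ Ux Γ r y} ≠ ⊤ :=
            ne_top_of_le_ne_top (measure_Icc_lt_top (a := (0 : ℝ)) (b := n)).ne (measure_mono fun t ht => ht.1)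
          show ENNReal.ofReal (c * n) ≤ _
          rw [← ofReal_measureReal hne]
          exact ENNReal.ofReal_le_ofReal (not_le.1 hx).le
      have h4 : (1 : ℝ≥0∞) ≤ ENNReal.ofReal (1 / 2 + e) + μ {x : XG Γ | ENNReal.ofReal (c * n) ≤ volume {t : ℝ | t ∈ Icc (0 : ℝ) n ∧ fl Γ t x ∈ Ux Γ r y}} := by
        calc (1 : ℝ≥0∞) = μ univ := measure_univ.symm
          _ ≤ _ := (measure_mono hcov).trans ((measure_union_le _ _).trans (by gcongr))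
      have h5 : (1 : ℝ≥0∞) = ENNReal.ofReal (1 / 2 + e) + ENNReal.ofReal (1 / 2 - e) := by
        rw [← ENNReal.ofReal_add (by linarith) (by linarith)]
        norm_num
      rw [h5] at h4
      exact (ENNReal.add_le_add_iff_left ENNReal.ofReal_ne_top).1 h4
    have h6 : ENNReal.ofReal (c * n) * ENNReal.ofReal (1 / 2 - e) ≤ ENNReal.ofReal n * ENNReal.ofReal b := le_trans (by gcongr) h1
    rw [← ENNReal.ofReal_mul (by positivity), ← ENNReal.ofReal_mul hnr.le, ENNReal.ofReal_le_ofReal_iff (by positivity)] at h6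
    have h7 : (n : ℝ) * (c * (1 / 2 - e)) ≤ n * b := by linarith
    exact le_of_mul_le_mul_left h7 hnr
  rw [hbe]
  refine ENNReal.ofReal_le_ofReal ?_
  by_contra hcon
  have hcon := not_le.1 hcon
  have hd : 0 < (c / 2 - b) / (2 * c) := by
    have : 0 < c / 2 - b := by linarith
    positivity
  have hd2 : (c / 2 - b) / (2 * c) < 1 / 2 := by
    rw [div_lt_iff₀ (by positivity)]
    linarith
  have h8 := key _ hd hd2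
  have h9 : c * (1 / 2 - (c / 2 - b) / (2 * c)) = c / 2 - (c / 2 - b) / 2 := by
    field_simp
  rw [h9] at h8
  linarith

/-- the lift, for a given domain -/
theorem dg_lift (β α : ℝ → ℝ) (hβ : BB (1 / 4) β) (hα' : BA (1 / 8) α) (Γ : Subgroup SL(2, ℝ)) (F₀ : Set ℍ) (hF₀ : QU.NiceDom Γ F₀) (F : Set ℍ) (r : ℕ → ℝ) (φ : ℕ → ℍ → ℂ) (ν : Measure (MG Γ))
    (hΓ : QU.SurfaceGroup Γ) (hF : IsFundamentalDomain Γ F (volume : Measure ℍ)) (hr : Tendsto r atTop atTop) (hφ : ∀ k, Eig Γ (r k) (φ k))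
    (hn : ∀ k, ∫ z in F, ‖φ k z‖ ^ 2 = 1) (hfin : IsFiniteMeasure ν)
    (hν : ∀ V : MG Γ → ℝ, Continuous V → Tendsto (fun k => ∫ z in F, V (mkM Γ z) * ‖φ k z‖ ^ 2) atTop (𝓝 (∫ x, V x ∂ν))) :
    (∀ k, nn F₀ (φ k) = 1) ∧ ∃ μ : Measure (XG Γ), IsProbabilityMeasure μ ∧ (∀ t, μ.map (fl Γ t) = μ) ∧ μ.map (pr Γ) = ν ∧ IR.MP Γ F₀ β α r φ μ := by
  obtain ⟨-, -, -, -, hdob, -⟩ := QU.A_DOB Γ F₀ hΓ hF₀
  have hdom := (hdob F hF).2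
  obtain ⟨-, hprc, -, -, hsur, -, -, -, -, -, -, hmkM⟩ := EN.A_XFL Γ
  have hinv : ∀ k (γ : Γ) z, ‖φ k (γ • z)‖ ^ 2 = ‖φ k z‖ ^ 2 := by
    intro k γ z
    rw [(hφ k).2.1 γ z]
  have hn0 : ∀ k, nn F₀ (φ k) = 1 := by
    intro k
    unfold nn
    rw [← hdom _ (hinv k)]
    exact hn k
  have hν0 : ∀ V : MG Γ → ℝ, Continuous V →
      Tendsto (fun k => ∫ z in F₀, V (mkM Γ z) * ‖φ k z‖ ^ 2) atTop (𝓝 (∫ x, V x ∂ν)) := by
    intro V hV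
    refine (hν V hV).congr fun k => ?_
    refine hdom _ fun γ z => ?_
    rw [hinv k γ z, (hmkM (γ • z) z).2 ⟨γ⁻¹, by rw [inv_smul_smul]⟩]
  obtain ⟨μ, hμ, hflow, hmap, hlow⟩ := MS.A_MU Γ F₀ β α r φ ν hΓ hF₀ hβ hα' hr hφ hn0 hfin hν0
  exact ⟨hn0, μ, hμ, hflow, hmap, hlow⟩

/-- **DENSE GEODESICS, UNIFORM VERSION** -/
theorem dg_final (hFRM : FRM_stmt) (hFSD : FSD_stmt) (Γ : Subgroup SL(2, ℝ)) (hΓ : QU.SurfaceGroup Γ) :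
    ∃ (ε : ℝ → ℝ) (N : ℝ → ℝ → ℕ), (∀ r, 0 < r → 0 < ε r) ∧
      ∀ (F : Set ℍ) (s : ℕ → ℝ) (φ : ℕ → ℍ → ℂ) (ν : Measure (MG Γ)), IsFundamentalDomain Γ F (volume : Measure ℍ) → Tendsto s atTop atTop → (∀ k, Eig Γ (s k) (φ k)) →
        (∀ k, ∫ z in F, ‖φ k z‖ ^ 2 = 1) → IsFiniteMeasure ν →
        (∀ V : MG Γ → ℝ, Continuous V → Tendsto (fun k => ∫ z in F, V (mkM Γ z) * ‖φ k z‖ ^ 2) atTop (𝓝 (∫ x, V x ∂ν))) →
        ∃ μ : Measure (XG Γ), IsProbabilityMeasure μ ∧ (∀ t, μ.map (fl Γ t) = μ) ∧ μ.map (pr Γ) = ν ∧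
          (∀ r e : ℝ, 0 < r → 0 < e → ∀ n : ℕ, N r e ≤ n →
            μ {x : XG Γ | ∃ y : XG Γ, volume.real {t : ℝ | t ∈ Icc (0 : ℝ) n ∧ fl Γ t x ∈ Ux Γ r y} ≤ ε r * n} ≤ ENNReal.ofReal (1 / 2 + e)) ∧
          (∀ r : ℝ, 0 < r →
            μ {x : XG Γ | ∃ (y : XG Γ) (T0 : ℝ), ∀ T : ℝ, T0 ≤ T → volume.real {t : ℝ | t ∈ Icc (0 : ℝ) T ∧ fl Γ t x ∈ Ux Γ r y} ≤ ε r * T} ≤ 1 / 2) ∧
          (∀ r : ℝ, 0 < r → ∀ y : XG Γ, ENNReal.ofReal (ε r / 2) ≤ μ (Ux Γ r y)) ∧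
          MeasurableSet {x : XG Γ | ¬ Dense (range fun t : ℝ => fl Γ t x)} ∧ μ {x : XG Γ | ¬ Dense (range fun t : ℝ => fl Γ t x)} ≤ 1 / 2 := by
  classical
  obtain ⟨-, -, -, -, -, hex⟩ := MS.A_STB
  obtain ⟨β, hβ⟩ := (hex (1 / 4) (by norm_num)).2
  obtain ⟨α, hα'⟩ := (hex (1 / 8) (by norm_num)).1
  obtain ⟨F₀, hF₀⟩ := QU.A_DOM Γ hΓ
  obtain ⟨K, hK, HK⟩ := IR.core_gp Γ F₀ β α hΓ hF₀ hβ hα'
  have k1 : ∀ r : ℝ, ∃ c : ℝ, 0 < r → 0 < c ∧ ∀ e : ℝ, 0 < e → ∃ n0 : ℕ, ∀ (μ : Measure (XG Γ)) (n : ℕ), n0 ≤ n → IsProbabilityMeasure μ → IR.GP Γ μ K →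
      μ {x : XG Γ | ∃ y : XG Γ, volume.real {t : ℝ | t ∈ Icc (0 : ℝ) n ∧ fl Γ t x ∈ Ux Γ r y} ≤ c * n} ≤ ENNReal.ofReal (1 / 2 + e) := by
    intro r
    by_cases hr : 0 < r
    · obtain ⟨c, hc, H⟩ := dg_fin hFRM Γ hΓ r hr
      exact ⟨c, fun _ => ⟨hc, fun e he => H K e hK he⟩⟩
    · exact ⟨0, fun h => absurd h hr⟩
  choose ε hε using k1
  have k2 : ∀ r e : ℝ, ∃ n0 : ℕ, 0 < r → 0 < e → ∀ (μ : Measure (XG Γ)) (n : ℕ), n0 ≤ n → IsProbabilityMeasure μ → IR.GP Γ μ K →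
      μ {x : XG Γ | ∃ y : XG Γ, volume.real {t : ℝ | t ∈ Icc (0 : ℝ) n ∧ fl Γ t x ∈ Ux Γ r y} ≤ ε r * n} ≤ ENNReal.ofReal (1 / 2 + e) := by
    intro r e
    by_cases h : 0 < r ∧ 0 < e
    · obtain ⟨n0, hn0⟩ := (hε r h.1).2 e h.2
      exact ⟨n0, fun _ _ => hn0⟩
    · exact ⟨0, fun h1 h2 => absurd ⟨h1, h2⟩ h⟩
  choose N hN using k2
  refine ⟨ε, N, fun r hr => (hε r hr).1, ?_⟩
  intro F s φ ν hF hs hφ hn hfin hν
  obtain ⟨hn0, μ, hμ, hfl, hmap, hMP⟩ := dg_lift β α hβ hα' Γ F₀ hF₀ F s φ ν hΓ hF hs hφ hn hfin hν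
  have hGP : IR.GP Γ μ K := HK s φ μ hs hφ hn0 hμ hMP
  have hA : ∀ r e : ℝ, 0 < r → 0 < e → ∀ n : ℕ, N r e ≤ n →
      μ {x : XG Γ | ∃ y : XG Γ, volume.real {t : ℝ | t ∈ Icc (0 : ℝ) n ∧ fl Γ t x ∈ Ux Γ r y} ≤ ε r * n} ≤ ENNReal.ofReal (1 / 2 + e) :=
    fun r e hr he n hn => hN r e hr he μ n hn hμ hGP
  obtain ⟨hD1, hD2⟩ := hFSD Γ μ K hΓ hμ hK hGP
  exact ⟨μ, hμ, hfl, hmap, hA, fun r hr => dg_inf Γ μ r (ε r) fun e he => ⟨N r e, hA r e hr he⟩,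
    fun r hr y => dg_mass Γ μ hμ hfl r (ε r) (hε r hr).1 (fun e he => ⟨N r e, hA r e hr he⟩) y, hD1, hD2⟩

end Pool.Agent.FS
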