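import Pool.Agent.helper93.LQ.Fin
import Pool.Agent.helper52.FS.SpecD

/-!
# MP_07c750: the final theorem of the project FS (dense geodesics carry at least half of the mass)

`fs_final`: FS alone. `fs_all`: T1 + HH + LQ + CG + FS for ONE lift and one absolute constant.
-/

set_option autoImplicit false

open scoped MatrixGroups ContDiff Topology UpperHalfPlane ENNReal NNReal
open UpperHalfPlane MeasureTheory Filter Set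

namespace Pool.Agent.FS

open Pool.Agent.RS
open Pool.Agent.MS (bq BB BA SF pf)
open Pool.Agent.EN (XG MG mkX mkM fl pr)
open Pool.Agent.ER (Low)
open Pool.Agent.IR (loc)

/-- FS for a measure with the property `MP` -/
theorem fs_core (hFSD : FSD_stmt) (Γ : Subgroup SL(2, ℝ)) (F₀ : Set ℍ) (β α : ℝ → ℝ) (r : ℕ → ℝ) (φ : ℕ → ℍ → ℂ)
    (μ : Measure (XG Γ)) (hΓ : QU.SurfaceGroup Γ) (hF₀ : QU.NiceDom Γ F₀)
    (hβ : BB (1 / 4) β) (hα : BA (1 / 8) α) (hr : Tendsto r atTop atTop) (hφ : ∀ k, Eig Γ (r k) (φ k)) (hn : ∀ k, nn F₀ (φ k) = 1)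
    (hμ : IsProbabilityMeasure μ) (hMP : IR.MP Γ F₀ β α r φ μ) :
    MeasurableSet {x : XG Γ | ¬ Dense (range fun t : ℝ => fl Γ t x)} ∧ μ {x : XG Γ | ¬ Dense (range fun t : ℝ => fl Γ t x)} ≤ 1 / 2 := by
  obtain ⟨K, hK, HK⟩ := IR.core_gp Γ F₀ β α hΓ hF₀ hβ hα
  exact hFSD Γ μ K hΓ hμ hK (HK r φ μ hr hφ hn hμ hMP)

/-- **FS**: for every quantum limit of every closed hyperbolic surface the points whose geodesic is not dense have mass at most one half -/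
theorem fs_final (hFSD : FSD_stmt) (Γ : Subgroup SL(2, ℝ)) (F : Set ℍ) (r : ℕ → ℝ) (φ : ℕ → ℍ → ℂ) (ν : Measure (MG Γ)) (hΓ : QU.SurfaceGroup Γ)
    (hF : IsFundamentalDomain Γ F (volume : Measure ℍ)) (hr : Tendsto r atTop atTop) (hφ : ∀ k, Eig Γ (r k) (φ k)) (hn : ∀ k, ∫ z in F, ‖φ k z‖ ^ 2 = 1)
    (hfin : IsFiniteMeasure ν)
    (hν : ∀ V : MG Γ → ℝ, Continuous V → Tendsto (fun k => ∫ z in F, V (mkM Γ z) * ‖φ k z‖ ^ 2) atTop (𝓝 (∫ x, V x ∂ν))) :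
    ∃ μ : Measure (XG Γ), IsProbabilityMeasure μ ∧ (∀ t, μ.map (fl Γ t) = μ) ∧ μ.map (pr Γ) = ν ∧
      MeasurableSet {x : XG Γ | ¬ Dense (range fun t : ℝ => fl Γ t x)} ∧ μ {x : XG Γ | ¬ Dense (range fun t : ℝ => fl Γ t x)} ≤ 1 / 2 := by
  obtain ⟨-, -, -, -, -, hex⟩ := MS.A_STB
  obtain ⟨β, hβ⟩ := (hex (1 / 4) (by norm_num)).2
  obtain ⟨α, hα'⟩ := (hex (1 / 8) (by norm_num)).1
  obtain ⟨F₀, hF₀, hn0, μ, hμ, hfl, hmap, hMP, -⟩ := IR.core_lift β α hβ hα' Γ F r φ ν hΓ hF hr hφ hn hfin hν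
  obtain ⟨h1, h2⟩ := fs_core hFSD Γ F₀ β α r φ μ hΓ hF₀ hβ hα' hr hφ hn0 hμ hMP
  exact ⟨μ, hμ, hfl, hmap, h1, h2⟩

/-- **T1 + HH + LQ + CG + FS**, one lift, one absolute constant -/
theorem fs_all (hFN2 : T1.FN2_stmt) (hHAL : HH.HAL_stmt) (hLPQ : LP.LPQ_stmt) (hUPQ : LP.UPQ_stmt) (hCOL : LP.COL_stmt) (hCGM : CG.CGM_stmt) (hFSD : FSD_stmt) :
    ∃ c : ℝ, 0 < c ∧ ∀ (Γ : Subgroup SL(2, ℝ)) (F : Set ℍ) (r : ℕ → ℝ) (φ : ℕ → ℍ → ℂ) (ν : Measure (MG Γ)), QU.SurfaceGroup Γ →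
    IsFundamentalDomain Γ F (volume : Measure ℍ) → Tendsto r atTop atTop → (∀ k, Eig Γ (r k) (φ k)) → (∀ k, ∫ z in F, ‖φ k z‖ ^ 2 = 1) → IsFiniteMeasure ν →
    (∀ V : MG Γ → ℝ, Continuous V → Tendsto (fun k => ∫ z in F, V (mkM Γ z) * ‖φ k z‖ ^ 2) atTop (𝓝 (∫ x, V x ∂ν))) →
    (∃ μ : Measure (XG Γ), IsProbabilityMeasure μ ∧ (∀ t, μ.map (fl Γ t) = μ) ∧ μ.map (pr Γ) = ν ∧ (∀ a, MeasurableSet (Low Γ μ a)) ∧ Measurable (loc Γ μ) ∧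
      1 / 2 + c ≤ ∫ x, loc Γ μ x ∂μ ∧ μ (Low Γ μ (1 / 2 + 1 / 10 ^ 7)) ≤ 1 / 2 ∧ μ (Low Γ μ c) ≤ ENNReal.ofReal (1 / 2 - c) ∧
      (∀ a h : ℝ, 0 ≤ a → a < 1 / 2 → 0 ≤ h → h < 1 → 3 * a + h < 2 → μ (Low Γ μ h) + μ (Low Γ μ a) ≤ 1) ∧
      (∀ A : Set (MG Γ), MeasurableSet A → μ (Low Γ μ (1 / 3)) * (volume (F ∩ {z : ℍ | mkM Γ z ∈ A}) / volume F) ≤ ν A) ∧
      MeasurableSet {x : XG Γ | ¬ Dense (range fun t : ℝ => fl Γ t x)} ∧ μ {x : XG Γ | ¬ Dense (range fun t : ℝ => fl Γ t x)} ≤ 1 / 2) ∧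
      MeasurableSet (CG.CGset Γ) ∧ ν (CG.CGset Γ) ≤ ENNReal.ofReal (1 / 2 - c) := by
  obtain ⟨-, -, -, -, -, hex⟩ := MS.A_STB
  obtain ⟨β, hβ⟩ := (hex (1 / 4) (by norm_num)).2
  obtain ⟨α, hα'⟩ := (hex (1 / 8) (by norm_num)).1
  obtain ⟨c, ρ0, hc, hρ, HFN⟩ := hFN2 β α hβ hα'
  obtain ⟨c', hc', HM⟩ := HH.A_MEA (min c (1 / 2)) (min ρ0 (1 / 2)) (1 / 10000000) (lt_min hc (by norm_num)) (min_le_right _ _) (lt_min hρ (by norm_num)) (min_le_right _ _) (by norm_num)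
  refine ⟨min (min c ρ0) c', lt_min (lt_min hc hρ) hc', ?_⟩
  have l1 : min (min c ρ0) c' ≤ c' := min_le_right _ _
  have l2 : min (min c ρ0) c' ≤ ρ0 := (min_le_left _ _).trans (min_le_right _ _)
  have l3 : min (min c ρ0) c' ≤ c := (min_le_left _ _).trans (min_le_left _ _)
  have l0 : 0 < min (min c ρ0) c' := lt_min (lt_min hc hρ) hc'
  intro Γ F r φ ν hΓ hF hr hφ hn hfin hν
  obtain ⟨F₀, hF₀, hn0, μ, hμ, hfl, hmap, hMP, HU⟩ := IR.core_lift β α hβ hα' Γ F r φ ν hΓ hF hr hφ hn hfin hν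
  have H2 : ∀ a : ℝ, 1 / 2 ≤ a → a < 1 → μ (Low Γ μ a) + μ (Low Γ μ ((1 - a) * (1 + (2 * a - 1) / 200))) ≤ 1 :=
    fun a ha ha1 => IR.core Γ F₀ β α r φ μ hΓ hF₀ hβ hα' hr hφ hn0 hμ hfl hMP a ha ha1
  obtain ⟨hm, h01, hle, hmean⟩ := IR.core_mean Γ μ hΓ hμ H2
  have h5 : μ.real (Low Γ μ ρ0) ≤ 1 / 2 - c := HFN Γ F₀ r φ μ hΓ hF₀ hr hφ hn0 hμ hfl hMP
  have h6 : μ.real (Low Γ μ (1 / 2 + 1 / 10000000)) ≤ 1 / 2 := HH.half_of_HAL hHAL Γ F₀ β α r φ μ hΓ hF₀ hβ hα' hr hφ hn0 hμ hfl hMP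
  have h7 : μ.real (Low Γ μ (min ρ0 (1 / 2))) ≤ 1 / 2 - min c (1 / 2) := by
    refine le_trans (measureReal_mono (IR.all_mono Γ μ _ ρ0 (min_le_left _ _))) (le_trans h5 ?_)
    linarith [min_le_left c (1 / 2 : ℝ)]
  obtain ⟨hR, hU⟩ := LP.lq_core hLPQ hUPQ hCOL Γ F F₀ β α r φ μ ν hΓ hF hF₀ hβ hα' hr hφ hn0 hfin hμ hfl hmap hMP
  obtain ⟨hD1, hD2⟩ := fs_core hFSD Γ F₀ β α r φ μ hΓ hF₀ hβ hα' hr hφ hn0 hμ hMP
  have e7 : (1 / 10 ^ 7 : ℝ) = 1 / 10000000 := by norm_num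
  have h8 : μ (Low Γ μ (min (min c ρ0) c')) ≤ ENNReal.ofReal (1 / 2 - min (min c ρ0) c') := by
    rw [← ofReal_measureReal (measure_ne_top μ _)]
    refine ENNReal.ofReal_le_ofReal ((measureReal_mono (IR.all_mono Γ μ _ ρ0 l2)).trans (h5.trans ?_))
    linarith
  obtain ⟨hCm, hCn⟩ := hCGM Γ μ hΓ hμ hfl
  refine ⟨⟨μ, hμ, hfl, hmap, fun a => ER.Low_meas Γ hΓ μ hμ a, hm, ?_, ?_, h8, hR, hU, hD1, hD2⟩, hCm, ?_⟩
  · have h9 : 1 / 2 + c' ≤ ∫ x, loc Γ μ x ∂μ := by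
      refine HM (XG Γ) μ (loc Γ μ) hμ hm h01 ?_ ?_ hmean
      · rw [hle _ (lt_min hρ (by norm_num)).le (lt_of_le_of_lt (min_le_right _ _) (by norm_num))]
        exact h7
      · rw [hle _ (by norm_num) (by norm_num)]
        exact h6
    linarith
  · rw [e7, ← ofReal_measureReal (measure_ne_top μ _)]
    refine (ENNReal.ofReal_le_ofReal h6).trans (le_of_eq ?_)
    rw [ENNReal.ofReal_div_of_pos two_pos]
    simp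
  · rw [← hmap]
    exact hCn.trans ((measure_mono (IR.all_mono Γ μ _ _ l0.le)).trans h8)

end Pool.Agent.FS
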