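import Pool.Agent.helper78.FS.Spec

set_option autoImplicit false

namespace Pool.Agent.helper78.FS

open Finset Real
open Classical

noncomputable section

theorem hex_inj {V : Type} [DecidableEq V] (u : ZMod 6 → V) (hu : Function.Injective u) :
    Function.Injective (fun k : ZMod 6 => ({u k, u (k + 1)} : Finset V)) := by
  intro k l h
  simp only at h
  have h1 : u k ∈ ({u l, u (l + 1)} : Finset V) := by rw [← h]; simp
  have h2 : u (k + 1) ∈ ({u l, u (l + 1)} : Finset V) := by rw [← h]; simp
  have h3 : k = l ∨ k = l + 1 := by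
    simp only [Finset.mem_insert, Finset.mem_singleton] at h1
    rcases h1 with h1 | h1
    · exact Or.inl (hu h1)
    · exact Or.inr (hu h1)
  have h4 : k + 1 = l ∨ k + 1 = l + 1 := by
    simp only [Finset.mem_insert, Finset.mem_singleton] at h2
    rcases h2 with h2 | h2
    · exact Or.inl (hu h2)
    · exact Or.inr (hu h2)
  clear h h1 h2 hu
  revert k l
  decide

theorem SPT_core (hLNK : LNK_stmt) (hARC : ARC_stmt) (V : Type) [DecidableEq V] (G : V → V → Prop)
    (z ZP y : Finset (Finset V)) (ap : Finset V → V) (hz : Cyc G z) (hy : Cyc G y) (hyz : y ⊆ z ∪ ZP)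
    (τ : Finset V) (hτZ : τ ∈ ZP) (hτy : τ ∈ y) (hc : τ.card = 3) (hnz : τ ∉ z) (hap : ap τ ∈ τ)
    (u : ZMod 6 → V) (hu : Function.Injective u) (hlk : lk z (ap τ) = hexE u)
    (hua : ∀ a ∈ τ, a ≠ ap τ → ∃ i, a = u i) (hoth : ∀ τ' ∈ ZP, τ' ≠ τ → ap τ ∉ τ') :
    2 ≤ ((y ∩ z).filter (fun ρ => ap τ ∈ ρ)).card ∧ 2 ≤ ((z \ y).filter (fun ρ => ap τ ∈ ρ)).card := by
  obtain ⟨hz1, hz2, hz3, hz4⟩ := hLNK V G z (ap τ) hz
  obtain ⟨hy1, hy2, hy3, hy4⟩ := hLNK V G y (ap τ) hy
  set v := ap τ with hv
  -- the chord
  have hcard2 : (τ.erase v).card = 2 := by rw [Finset.card_erase_of_mem hap, hc]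
  obtain ⟨a, b, hab, hτe⟩ := Finset.card_eq_two.mp hcard2
  have haτ : a ∈ τ.erase v := by rw [hτe]; simp
  have hbτ : b ∈ τ.erase v := by rw [hτe]; simp
  obtain ⟨i, rfl⟩ := hua a (Finset.mem_of_mem_erase haτ) (Finset.ne_of_mem_erase haτ)
  obtain ⟨j, rfl⟩ := hua b (Finset.mem_of_mem_erase hbτ) (Finset.ne_of_mem_erase hbτ)
  have hij : i ≠ j := fun h => hab (by rw [h])
  have hins : insert v (τ.erase v) = τ := Finset.insert_erase hap
  -- edges of the hexagon are in the link of z
  have hE : ∀ k : ZMod 6, ({u k, u (k + 1)} : Finset V) ∈ lk z v := by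
    intro k; rw [hlk]; exact Finset.mem_image_of_mem _ (Finset.mem_univ k)
  have hEz : ∀ k : ZMod 6, insert v ({u k, u (k + 1)} : Finset V) ∈ z := fun k => (hz1 _ (hE k)).2.2
  have hEv : ∀ k : ZMod 6, v ∉ ({u k, u (k + 1)} : Finset V) := fun k => (hz1 _ (hE k)).2.1
  have hchord : ∀ k : ZMod 6, ({u k, u (k + 1)} : Finset V) ≠ τ.erase v := by
    intro k hk
    apply hnz
    rw [← hins, ← hk]
    exact hEz k
  have hne1 : j ≠ i + 1 := by
    intro h; apply hchord i; rw [hτe, h]
  have hne2 : i ≠ j + 1 := by
    intro h; apply hchord j; rw [hτe, h]; exact Finset.pair_comm _ _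
  -- the link of y
  set S : Finset (ZMod 6) := Finset.univ.filter (fun k => ({u k, u (k + 1)} : Finset V) ∈ lk y v) with hS
  have hlky : lk y v = insert (τ.erase v) (S.image (fun k => ({u k, u (k + 1)} : Finset V))) := by
    ext e
    simp only [Finset.mem_insert, Finset.mem_image, hS, Finset.mem_filter, Finset.mem_univ, true_and]
    constructor
    · intro he
      obtain ⟨he1, he2, he3⟩ := hy1 e he
      rcases Finset.mem_union.mp (hyz he3) with h | h
      · right
        have : e ∈ lk z v := hz2 e he2 h
        rw [hlk] at this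
        obtain ⟨k, -, hk⟩ := Finset.mem_image.mp this
        exact ⟨k, by rw [hk]; exact he, hk⟩
      · left
        have h1 : insert v e = τ := by
          by_contra hne
          exact hoth _ h hne (Finset.mem_insert_self v e)
        rw [← h1, Finset.erase_insert he2]
    · rintro (h | ⟨k, hk, rfl⟩)
      · rw [h]; apply hy2
        · simp
        · rw [hins]; exact hτy
      · exact hk
  have hnotin : τ.erase v ∉ S.image (fun k => ({u k, u (k + 1)} : Finset V)) := by
    intro h
    obtain ⟨k, -, hk⟩ := Finset.mem_image.mp h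
    exact hchord k hk
  have hS2 : 2 ≤ S.card ∧ S.card ≤ 4 := by
    apply hARC S i j _ hij hne1 hne2
    intro k
    have h := hy3 (u k)
    have hcnt : ((lk y v).filter (fun e => u k ∈ e)).card =
        (if k ∈ S then 1 else 0) + (if k - 1 ∈ S then 1 else 0) + (if k = i then 1 else 0) + (if k = j then 1 else 0) := by
      rw [hlky, Finset.filter_insert]
      have hP : (u k ∈ τ.erase v) ↔ (k = i ∨ k = j) := by
        rw [hτe]; simp only [Finset.mem_insert, Finset.mem_singleton]
        constructor
        · rintro (h | h)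
          · exact Or.inl (hu h)
          · exact Or.inr (hu h)
        · rintro (h | h)
          · exact Or.inl (by rw [h])
          · exact Or.inr (by rw [h])
      have hfi : ((S.image (fun k => ({u k, u (k + 1)} : Finset V))).filter (fun e => u k ∈ e)).card =
          (if k ∈ S then 1 else 0) + (if k - 1 ∈ S then 1 else 0) := by
        rw [Finset.filter_image, Finset.card_image_of_injective _ (hex_inj u hu)]
        have : S.filter (fun l => u k ∈ ({u l, u (l + 1)} : Finset V)) =
            S.filter (fun l => l = k) ∪ S.filter (fun l => l = k - 1) := by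
          ext l
          simp only [Finset.mem_filter, Finset.mem_union, Finset.mem_insert, Finset.mem_singleton]
          constructor
          · rintro ⟨h1, h2 | h2⟩
            · exact Or.inl ⟨h1, (hu h2).symm⟩
            · refine Or.inr ⟨h1, ?_⟩
              have := hu h2
              rw [this]; ring
          · rintro (⟨h1, h2⟩ | ⟨h1, h2⟩)
            · exact ⟨h1, Or.inl (by rw [h2])⟩
            · exact ⟨h1, Or.inr (by rw [h2]; congr 1; ring)⟩
        rw [this, Finset.card_union_of_disjoint]
        · congr 1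
          · rw [Finset.filter_eq']; split_ifs <;> simp
          · rw [Finset.filter_eq']; split_ifs <;> simp
        · rw [Finset.disjoint_left]
          intro l h1 h2
          simp only [Finset.mem_filter] at h1 h2
          have h3 : k = k - 1 := h1.2.symm.trans h2.2
          clear * - h3
          revert h3; revert k; decide
      by_cases hk : u k ∈ τ.erase v
      · rw [if_pos hk, Finset.card_insert_of_notMem]
        · rw [hfi]
          rcases hP.mp hk with h1 | h1
          · have h2 : k ≠ j := by rw [h1]; exact hij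
            rw [if_pos h1, if_neg h2]
          · have h2 : k ≠ i := by rw [h1]; exact hij.symm
            rw [if_pos h1, if_neg h2]
        · intro h1; exact hnotin (Finset.mem_of_mem_filter _ h1)
      · rw [if_neg hk, hfi]
        have h1 : k ≠ i := fun h => hk (hP.mpr (Or.inl h))
        have h2 : k ≠ j := fun h => hk (hP.mpr (Or.inr h))
        simp only [if_neg h1, if_neg h2, add_zero]
    rw [← hcnt]; exact h
  -- the star of v
  have hTinj : Function.Injective (fun k : ZMod 6 => insert v ({u k, u (k + 1)} : Finset V)) := by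
    intro k l h
    apply hex_inj u hu
    simp only at h ⊢
    have := congrArg (fun s => Finset.erase s v) h
    simpa only [Finset.erase_insert (hEv k), Finset.erase_insert (hEv l)] using this
  constructor
  · calc 2 ≤ S.card := hS2.1
      _ = (S.image (fun k : ZMod 6 => insert v ({u k, u (k + 1)} : Finset V))).card :=
          (Finset.card_image_of_injective _ hTinj).symm
      _ ≤ _ := by
          apply Finset.card_le_card
          intro ρ hρ
          obtain ⟨k, hk, rfl⟩ := Finset.mem_image.mp hρ
          rw [hS, Finset.mem_filter] at hk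
          simp only [Finset.mem_filter, Finset.mem_inter]
          exact ⟨⟨(hy1 _ hk.2).2.2, hEz k⟩, Finset.mem_insert_self _ _⟩
  · have h6 : (Finset.univ \ S).card = 6 - S.card := by
      rw [Finset.card_sdiff_of_subset (Finset.subset_univ S)]; rfl
    calc 2 ≤ (Finset.univ \ S).card := by rw [h6]; omega
      _ = ((Finset.univ \ S).image (fun k : ZMod 6 => insert v ({u k, u (k + 1)} : Finset V))).card :=
          (Finset.card_image_of_injective _ hTinj).symm
      _ ≤ _ := by
          apply Finset.card_le_card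
          intro ρ hρ
          obtain ⟨k, hk, rfl⟩ := Finset.mem_image.mp hρ
          rw [Finset.mem_sdiff, hS, Finset.mem_filter] at hk
          simp only [Finset.mem_filter, Finset.mem_sdiff]
          refine ⟨⟨hEz k, ?_⟩, Finset.mem_insert_self _ _⟩
          intro h
          exact hk.2 ⟨Finset.mem_univ _, hy2 _ (hEv k) h⟩

theorem SPT : SPT_stmt := by
  intro hCYA hSBC hLNK hARC V _ G Ω z ZP ap hmin hZP y hy hyz
  by_cases hI : y ∩ ZP = ∅
  · apply hSBC hCYA V G Ω z y hmin hy
    intro τ hτ
    rcases Finset.mem_union.mp (hyz hτ) with h | h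
    · exact h
    · exfalso
      have : τ ∈ y ∩ ZP := Finset.mem_inter.mpr ⟨hτ, h⟩
      rw [hI] at this; simp at this
  exfalso
  have hIpos : 0 < (y ∩ ZP).card := Finset.card_pos.mpr (Finset.nonempty_iff_ne_empty.mpr hI)
  have hcore : ∀ τ ∈ y ∩ ZP, 2 ≤ ((y ∩ z).filter (fun ρ => ap τ ∈ ρ)).card ∧
      2 ≤ ((z \ y).filter (fun ρ => ap τ ∈ ρ)).card := by
    intro τ hτ
    obtain ⟨h1, h2⟩ := Finset.mem_inter.mp hτ
    obtain ⟨k1, k2, k3, k4, ⟨u, hu, hl, hua⟩, k6, k7⟩ := hZP τ h2
    exact SPT_core hLNK hARC V G z ZP y ap hmin.1 hy hyz τ h2 h1 k1 k3 k4 u hu hl hua k6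
  have hs : 2 * (y ∩ ZP).card ≤ (y ∩ z).card := by
    calc 2 * (y ∩ ZP).card = ∑ _τ ∈ y ∩ ZP, 2 := by rw [Finset.sum_const]; simp [mul_comm]
      _ ≤ ∑ τ ∈ y ∩ ZP, ((y ∩ z).filter (fun ρ => ap τ ∈ ρ)).card := Finset.sum_le_sum (fun τ hτ => (hcore τ hτ).1)
      _ = ((y ∩ ZP).biUnion (fun τ => (y ∩ z).filter (fun ρ => ap τ ∈ ρ))).card := by
          symm
          apply Finset.card_biUnion
          intro τ hτ τ' hτ' hne
          simp only [Function.onFun]
          rw [Finset.disjoint_left]
          intro ρ h1 h2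
          rw [Finset.mem_filter] at h1 h2
          exact (hZP τ (Finset.mem_inter.mp hτ).2).2.2.2.2.2.2 τ' (Finset.mem_inter.mp hτ').2 (Ne.symm hne) ρ
            (Finset.mem_inter.mp h1.1).2 h1.2 h2.2
      _ ≤ (y ∩ z).card := by
          apply Finset.card_le_card
          intro ρ hρ
          obtain ⟨τ, -, h⟩ := Finset.mem_biUnion.mp hρ
          exact Finset.mem_of_mem_filter _ h
  have hs' : 2 * (y ∩ ZP).card ≤ (z \ y).card := by
    calc 2 * (y ∩ ZP).card = ∑ _τ ∈ y ∩ ZP, 2 := by rw [Finset.sum_const]; simp [mul_comm]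
      _ ≤ ∑ τ ∈ y ∩ ZP, ((z \ y).filter (fun ρ => ap τ ∈ ρ)).card := Finset.sum_le_sum (fun τ hτ => (hcore τ hτ).2)
      _ = ((y ∩ ZP).biUnion (fun τ => (z \ y).filter (fun ρ => ap τ ∈ ρ))).card := by
          symm
          apply Finset.card_biUnion
          intro τ hτ τ' hτ' hne
          simp only [Function.onFun]
          rw [Finset.disjoint_left]
          intro ρ h1 h2
          rw [Finset.mem_filter] at h1 h2
          exact (hZP τ (Finset.mem_inter.mp hτ).2).2.2.2.2.2.2 τ' (Finset.mem_inter.mp hτ').2 (Ne.symm hne) ρ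
            (Finset.mem_sdiff.mp h1.1).1 h1.2 h2.2
      _ ≤ (z \ y).card := by
          apply Finset.card_le_card
          intro ρ hρ
          obtain ⟨τ, -, h⟩ := Finset.mem_biUnion.mp hρ
          exact Finset.mem_of_mem_filter _ h
  have hzc : z.card = (y ∩ z).card + (z \ y).card := by
    rw [Finset.inter_comm, add_comm, Finset.card_sdiff_add_card_inter]
  have hyc : y.card = (y ∩ z).card + (y ∩ ZP).card := by
    rw [← Finset.card_union_of_disjoint]
    · congr 1
      ext τ
      simp only [Finset.mem_union, Finset.mem_inter]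
      constructor
      · intro h
        rcases Finset.mem_union.mp (hyz h) with h1 | h1
        · exact Or.inl ⟨h, h1⟩
        · exact Or.inr ⟨h, h1⟩
      · rintro (h | h) <;> exact h.1
    · rw [Finset.disjoint_left]
      intro τ h1 h2
      exact (hZP τ (Finset.mem_inter.mp h2).2).2.2.1 (Finset.mem_inter.mp h1).2
  obtain ⟨c1, c2, c3⟩ := hCYA V G
  have hw : wt Ω (symmDiff z y) = 1 + wt Ω y := by rw [c2, hmin.2.1]
  have hsym : (symmDiff z y).card ≤ (z \ y).card + (y ∩ ZP).card := by
    have : symmDiff z y ⊆ (z \ y) ∪ (y ∩ ZP) := by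
      intro τ hτ
      rw [Finset.mem_symmDiff] at hτ
      simp only [Finset.mem_union, Finset.mem_sdiff, Finset.mem_inter]
      rcases hτ with h | h
      · exact Or.inl h
      · right
        rcases Finset.mem_union.mp (hyz h.1) with h1 | h1
        · exact absurd h1 h.2
        · exact ⟨h.1, h1⟩
    exact (Finset.card_le_card this).trans (Finset.card_union_le _ _)
  have h01 : wt Ω y = 0 ∨ wt Ω y = 1 := by
    generalize wt Ω y = t
    revert t; decide
  rcases h01 with h | h
  · have h1 : wt Ω (symmDiff z y) = 1 := by rw [hw, h]; rfl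
    have h2 := hmin.2.2 _ (c1 z y hmin.1 hy) h1
    omega
  · have h2 := hmin.2.2 y hy h
    omega

end

end Pool.Agent.helper78.FS
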